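import Pool.Agent.W866.TC.Stm

/-!
# Translates of a Cantor set: basic facts
-/

set_option autoImplicit false
set_option linter.unusedSectionVars false

namespace Pool.Agent.W866.TC

open Classical

/-! ### Nodes -/

theorem b_pos (m : ℕ) : 0 < b m := by unfold b; positivity

theorem b_mono {m n : ℕ} (h : m ≤ n) : b m ≤ b n := by
  unfold b
  exact Nat.pow_le_pow_right (by norm_num) (by omega)

theorem eight_le_b (m : ℕ) : 8 ≤ b m := by
  have := b_mono (Nat.zero_le m)
  simpa [b] using this

theorem B_pos (l : ℕ) : 0 < B l := by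
  induction l with
  | zero => simp [B]
  | succ l ih => exact Nat.mul_pos ih (b_pos l)

theorem B_succ (l : ℕ) : B (l + 1) = B l * b l := rfl

theorem B_dvd {l l' : ℕ} (h : l ≤ l') : B l ∣ B l' := by
  induction h with
  | refl => exact dvd_rfl
  | step _ ih => exact ih.trans ⟨b _, rfl⟩

theorem B_mul_div {l l' : ℕ} (h : l ≤ l') : B l * (B l' / B l) = B l' :=
  Nat.mul_div_cancel' (B_dvd h)

theorem B_div_pos {l l' : ℕ} (h : l ≤ l') : 0 < B l' / B l :=
  Nat.div_pos (Nat.le_of_dvd (B_pos _) (B_dvd h)) (B_pos _)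

theorem B_eq_pow (l : ℕ) : B l = 2 ^ nb l := by
  induction l with
  | zero => rfl
  | succ l ih => rw [B_succ, ih, nb, b, ← pow_add]

theorem nb_mono {l l' : ℕ} (h : l ≤ l') : nb l ≤ nb l' := by
  induction h with
  | refl => exact le_rfl
  | step _ ih => exact ih.trans (by rw [nb]; omega)

@[simp] theorem cut_self (n : ℕ × ℕ) : cut n.1 n = n.2 := by
  simp [cut, Nat.div_self (B_pos n.1)]

theorem cut_self' (l k : ℕ) : cut l (l, k) = k := cut_self (l, k)

theorem cut_succ (l k : ℕ) : cut l (l + 1, k) = k / b l := by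
  simp [cut, B_succ, Nat.mul_div_cancel_left _ (B_pos l)]

theorem cut_cut {l l' : ℕ} {m : ℕ × ℕ} (h : l ≤ l') (h' : l' ≤ m.1) :
    cut l (l', cut l' m) = cut l m := by
  unfold cut
  simp only
  rw [Nat.div_div_eq_div_mul]
  congr 1
  rw [mul_comm]
  obtain ⟨c, hc⟩ := B_dvd h
  obtain ⟨d, hd⟩ := B_dvd h'
  rw [hd, hc, Nat.mul_div_cancel_left _ (B_pos l), mul_assoc, Nat.mul_div_cancel_left _ (B_pos l),
    ← mul_assoc, Nat.mul_div_cancel_left]
  exact Nat.mul_pos (B_pos l) (Nat.pos_of_ne_zero (by rintro rfl; simp at hc; exact (B_pos l').ne' hc))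

theorem cut_lt {l : ℕ} {m : ℕ × ℕ} (h : l ≤ m.1) (hm : IsNode m) : cut l m < B l := by
  unfold cut
  rw [Nat.div_lt_iff_lt_mul (B_div_pos h), B_mul_div h]
  exact hm

theorem cut_zero {m : ℕ × ℕ} (hm : IsNode m) : cut 0 m = 0 := by
  have := cut_lt (Nat.zero_le _) hm
  simpa [B] using this

theorem NExt.refl (n : ℕ × ℕ) : NExt n n := ⟨le_rfl, cut_self n⟩

theorem NExt.trans {n m k : ℕ × ℕ} (h : NExt n m) (h' : NExt m k) : NExt n k := by
  refine ⟨h.1.trans h'.1, ?_⟩
  rw [← cut_cut h.1 h'.1, h'.2]
  exact h.2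

theorem NExt.cut_eq {n m : ℕ × ℕ} (h : NExt n m) {l : ℕ} (hl : l ≤ n.1) : cut l m = cut l n := by
  rw [← cut_cut hl h.1, h.2]

theorem nExt_cut {l : ℕ} {m : ℕ × ℕ} (h : l ≤ m.1) : NExt (l, cut l m) m := ⟨h, rfl⟩

theorem nExt_zero {m : ℕ × ℕ} (hm : IsNode m) : NExt (0, 0) m := ⟨Nat.zero_le _, cut_zero hm⟩

theorem isNode_zero : IsNode (0, 0) := by simp [IsNode, B]

theorem NExt.cut_ext {n m : ℕ × ℕ} (h : NExt n m) {l : ℕ} (hl : n.1 ≤ l) (hm : l ≤ m.1) :
    NExt n (l, cut l m) := ⟨hl, by rw [cut_cut hl hm]; exact h.2⟩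

theorem NExt.node {n m : ℕ × ℕ} (h : NExt n m) (hm : IsNode m) : IsNode n := by
  have := cut_lt h.1 hm
  rw [h.2] at this
  exact this

theorem Kn_lt {l k : ℕ} (h : Kn l k) : k < B l := by
  induction l generalizing k with
  | zero => simp only [Kn] at h; simp [h, B]
  | succ l ih =>
    rw [B_succ]
    exact (Nat.div_lt_iff_lt_mul (b_pos l)).1 (ih h.1)

theorem KNode.isNode {n : ℕ × ℕ} (h : KNode n) : IsNode n := Kn_lt h

theorem Kn_cut {l l' k : ℕ} (h : l ≤ l') (hk : Kn l' k) : Kn l (cut l (l', k)) := by
  induction l' generalizing k with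
  | zero =>
    obtain rfl : l = 0 := by omega
    rwa [cut_self']
  | succ l' ih =>
    rcases Nat.lt_or_ge l' l with h1 | h1
    · obtain rfl : l = l' + 1 := by omega
      rwa [cut_self']
    · rw [← cut_cut h1 (Nat.le_succ l'), cut_succ]
      exact ih h1 hk.1

/-! ### Conditions -/

section

variable {W I : Type}

theorem Stronger.refl (p : Cond W I) : Stronger p p := ⟨fun _ => NExt.refl _, Finset.Subset.refl _⟩

theorem Stronger.trans {p q r : Cond W I} (h : Stronger p q) (h' : Stronger q r) : Stronger p r :=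
  ⟨fun a => (h'.1 a).trans (h.1 a), h'.2.trans h.2⟩

theorem cnt_mono {p q : Cond W I} (h : q.F ⊆ p.F) (a : W) : cnt q a ≤ cnt p a :=
  Finset.card_le_card (Finset.filter_subset_filter _ h)

theorem cnt_mono' {p q : Cond W I} {a : W} (h : ∀ ι ∈ q.F, ι.1 = a → ι ∈ p.F) :
    cnt q a ≤ cnt p a :=
  Finset.card_le_card fun ι hι => by
    rw [Finset.mem_filter] at hι ⊢
    exact ⟨h ι hι.1 hι.2, hι.2⟩

theorem cnt_mono_succ {p q : Cond W I} {a : W} (κ : W × I)
    (h : ∀ ι ∈ q.F, ι.1 = a → ι ∈ p.F ∨ ι = κ) : cnt q a ≤ cnt p a + 1 := by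
  have h1 : (q.F.filter fun ι => ι.1 = a) ⊆ insert κ (p.F.filter fun ι => ι.1 = a) := by
    intro ι hι
    rw [Finset.mem_filter] at hι
    rw [Finset.mem_insert, Finset.mem_filter]
    rcases h ι hι.1 hι.2 with h2 | h2
    · exact Or.inr ⟨h2, hι.2⟩
    · exact Or.inl h2
  exact (Finset.card_le_card h1).trans (Finset.card_insert_le _ _)

theorem cnt_eq_zero {p : Cond W I} {a : W} (h : ∀ ι ∈ p.F, ι.1 ≠ a) : cnt p a = 0 := by
  rw [cnt, Finset.card_eq_zero, Finset.filter_eq_empty_iff]
  exact fun ι hι => h ι hι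

/-- the restriction of a condition to the stages and indices of `r` -/
noncomputable def restrR (r : RD W I) (p : Cond W I) : Cond W I where
  u := fun c => if c ∈ r.w then p.u c else (0, 0)
  F := p.F.filter fun ι => ι ∈ r.J

theorem Stronger.restrR {r : RD W I} {p : Cond W I} (hp : ∀ a, IsNode (p.u a)) :
    Stronger p (restrR r p) := by
  refine ⟨fun a => ?_, Finset.filter_subset _ _⟩
  simp only [TC.restrR]
  split_ifs
  · exact NExt.refl _
  · exact nExt_zero (hp a)

/-- for a condition `q` of `r`, restricting to `r` does not change `Stronger p q` -/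
theorem Stronger.to_restrR {r : RD W I} {p q : Cond W I} (h : Stronger p q) (hq : Valid r q) :
    Stronger (TC.restrR r p) q := by
  refine ⟨fun a => ?_, fun ι hι => ?_⟩
  · simp only [TC.restrR]
    split_ifs with h1
    · exact h.1 a
    · have : q.u a = (0, 0) := by
        by_contra h2
        exact h1 (hq.sub a h2)
      rw [this]
      exact NExt.refl _
  · simp only [TC.restrR, Finset.mem_filter]
    exact ⟨h.2 hι, hq.J ι hι⟩

end

section

variable {W I : Type} [LinearOrder W]

theorem RLe.refl (r : RD W I) : RLe r r := ⟨subset_rfl, subset_rfl, fun _ _ => rfl, subset_rfl⟩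

theorem RLe.trans {r s t : RD W I} (h : RLe r s) (h' : RLe s t) : RLe r t :=
  ⟨h'.w.trans h.w, h'.J.trans h.J, fun ι hι => (h.nm ι (h'.J hι)).trans (h'.nm ι hι),
    h'.N.trans h.N⟩

omit [LinearOrder W] in
/-- validity is preserved when the structure is enlarged -/
theorem Valid.mono' {r r' : RD W I} (hw : r.w ⊆ r'.w) (hJ : r.J ⊆ r'.J)
    (hn : ∀ ι ∈ r.J, r'.nm ι = r.nm ι) {p : Cond W I} (hp : Valid r p) : Valid r' p where
  fin := hp.fin
  sub a ha := hw (hp.sub a ha)
  node := hp.node
  room := hp.room
  J ι hι := hJ (hp.J ι hι)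
  wit ι hι := by
    rw [hn ι (hp.J ι hι)]
    exact hp.wit ι hι

theorem Valid.mono {r r' : RD W I} (h : RLe r' r) {p : Cond W I} (hp : Valid r p) : Valid r' p :=
  hp.mono' h.w h.J h.nm

/-- the restriction to `r` of a condition of an extension of `r` is a condition of `r` -/
theorem Valid.restrR' {r r' : RD W I} (hr : IsR r)
    (hn : ∀ ι ∈ r.J, r'.nm ι = r.nm ι) {p : Cond W I} (hp : Valid r' p) :
    Valid r (restrR r p) where
  fin := hp.fin.subset fun a ha => by
    simp only [restrR, Set.mem_ofPred_eq] at ha ⊢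
    split_ifs at ha with h1
    · exact ha
    · exact absurd rfl ha
  sub a ha := by
    simp only [restrR] at ha
    split_ifs at ha with h1
    · exact h1
    · exact absurd rfl ha
  node a := by
    simp only [restrR]
    split_ifs
    · exact hp.node a
    · exact isNode_zero
  room a := by
    simp only [restrR]
    split_ifs with h1
    · refine lt_of_le_of_lt ?_ (hp.room a)
      have := cnt_mono (p := p) (q := restrR r p) (Finset.filter_subset _ _) a
      simp only [restrR] at this
      omega
    · have : cnt (restrR r p) a = 0 := cnt_eq_zero (by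
        rintro ι hι rfl
        simp only [restrR, Finset.mem_filter] at hι
        exact h1 (hr.Jw ι hι.2))
      simp only [restrR] at this
      rw [this]
      simp [b]
  J ι hι := by
    simp only [restrR, Finset.mem_filter] at hι
    exact hι.2
  wit ι hι := by
    simp only [restrR, Finset.mem_filter] at hι
    obtain ⟨q, n, h1, h2, h3, h4⟩ := hp.wit ι hι.1
    rw [hn ι hι.2] at h1
    refine ⟨q, n, h1, h2.to_restrR ((hr.name ι hι.2).valid q n h1), ?_⟩
    simp only [restrR, if_pos (hr.Jw ι hι.2)]
    exact ⟨h3, h4⟩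

theorem Valid.restrR {r r' : RD W I} (hr : IsR r) (h : RLe r' r) {p : Cond W I}
    (hp : Valid r' p) : Valid r (restrR r p) := hp.restrR' hr h.nm

/-! ### Restriction to the stages before `a` -/

theorem below_restrB (a : W) (p : Cond W I) : Below a (restrB a p) := by
  refine ⟨fun c hc => ?_, fun ι hι => ?_⟩
  · simp only [restrB] at hc
    split_ifs at hc with h1
    · exact h1
    · exact absurd rfl hc
  · simp only [restrB, Finset.mem_filter] at hι
    exact hι.2

theorem Stronger.restrB {a : W} {p : Cond W I} (hp : ∀ c, IsNode (p.u c)) :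
    Stronger p (restrB a p) := by
  refine ⟨fun c => ?_, Finset.filter_subset _ _⟩
  simp only [TC.restrB]
  split_ifs
  · exact NExt.refl _
  · exact nExt_zero (hp c)

theorem Stronger.to_restrB {a : W} {p q : Cond W I} (h : Stronger p q) (hq : Below a q) :
    Stronger (TC.restrB a p) q := by
  refine ⟨fun c => ?_, fun ι hι => ?_⟩
  · simp only [TC.restrB]
    split_ifs with h1
    · exact h.1 c
    · have : q.u c = (0, 0) := by
        by_contra h2
        exact h1 (hq.1 c h2)
      rw [this]
      exact NExt.refl _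
  · simp only [TC.restrB, Finset.mem_filter]
    exact ⟨h.2 hι, hq.2 ι hι⟩

theorem Stronger.restrB_restrB {a : W} {p q : Cond W I} (h : Stronger p q) : Stronger (TC.restrB a p) (TC.restrB a q) := by
  refine ⟨fun c => ?_, fun ι hι => ?_⟩
  · simp only [TC.restrB]
    split_ifs with h1
    · exact h.1 c
    · exact NExt.refl _
  · simp only [TC.restrB, Finset.mem_filter] at hι ⊢
    exact ⟨h.2 hι.1, hι.2⟩

theorem Valid.restrB {r : RD W I} (hr : IsR r) {p : Cond W I} (hp : Valid r p) (a : W) :
    Valid r (restrB a p) where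
  fin := hp.fin.subset fun c hc => by
    simp only [TC.restrB, Set.mem_ofPred_eq] at hc ⊢
    split_ifs at hc with h1
    · exact hc
    · exact absurd rfl hc
  sub c hc := by
    simp only [TC.restrB] at hc
    split_ifs at hc with h1
    · exact hp.sub c hc
    · exact absurd rfl hc
  node c := by
    simp only [TC.restrB]
    split_ifs
    · exact hp.node c
    · exact isNode_zero
  room c := by
    simp only [TC.restrB]
    split_ifs with h1
    · refine lt_of_le_of_lt ?_ (hp.room c)
      have := cnt_mono (p := p) (q := TC.restrB a p) (Finset.filter_subset _ _) c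
      simp only [TC.restrB] at this
      omega
    · have : cnt (TC.restrB a p) c = 0 := cnt_eq_zero (by
        rintro ι hι rfl
        simp only [TC.restrB, Finset.mem_filter] at hι
        exact h1 hι.2)
      simp only [TC.restrB] at this
      rw [this]
      simp [b]
  J ι hι := hp.J ι (Finset.filter_subset _ _ hι)
  wit ι hι := by
    simp only [TC.restrB, Finset.mem_filter] at hι
    obtain ⟨q, n, h1, h2, h3, h4⟩ := hp.wit ι hι.1
    have hb := hr.below ι (hp.J ι hι.1) q n h1
    refine ⟨q, n, h1, h2.to_restrB ⟨fun c hc => (hb.1 c hc).trans hι.2,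
      fun κ hκ => (hb.2 κ hκ).trans hι.2⟩, ?_⟩
    simp only [TC.restrB, if_pos hι.2]
    exact ⟨h3, h4⟩

/-! ### Glueing -/

/-- `q` below stage `a`, `p` from stage `a` on -/
noncomputable def glue (a : W) (q p : Cond W I) : Cond W I where
  u := fun c => if c < a then q.u c else p.u c
  F := q.F ∪ p.F.filter fun ι => a ≤ ι.1

theorem glue_le_left {a : W} {q p : Cond W I} (hq : Below a q) (hp : ∀ c, IsNode (p.u c)) :
    Stronger (glue a q p) q := by
  refine ⟨fun c => ?_, Finset.subset_union_left⟩
  simp only [glue]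
  split_ifs with h1
  · exact NExt.refl _
  · have : q.u c = (0, 0) := by
      by_contra h2
      exact h1 (hq.1 c h2)
    rw [this]
    exact nExt_zero (hp c)

theorem glue_le_right {a : W} {q p : Cond W I} (h : Stronger q (restrB a p)) :
    Stronger (glue a q p) p := by
  refine ⟨fun c => ?_, fun ι hι => ?_⟩
  · simp only [glue]
    split_ifs with h1
    · have := h.1 c
      simp only [restrB, if_pos h1] at this
      exact this
    · exact NExt.refl _
  · simp only [glue, Finset.mem_union, Finset.mem_filter]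
    rcases lt_or_ge ι.1 a with h1 | h1
    · left
      apply h.2
      simp only [restrB, Finset.mem_filter]
      exact ⟨hι, h1⟩
    · exact Or.inr ⟨hι, h1⟩

theorem Valid.glue {r : RD W I} {a : W} {q p : Cond W I} (hq : Valid r q) (hqa : Below a q)
    (hp : Valid r p) (h : Stronger q (TC.restrB a p)) : Valid r (glue a q p) where
  fin := (hq.fin.union hp.fin).subset fun c hc => by
    simp only [TC.glue, Set.mem_ofPred_eq] at hc
    split_ifs at hc with h1
    · exact Or.inl hc
    · exact Or.inr hc
  sub c hc := by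
    simp only [TC.glue] at hc
    split_ifs at hc with h1
    · exact hq.sub c hc
    · exact hp.sub c hc
  node c := by
    simp only [TC.glue]
    split_ifs
    · exact hq.node c
    · exact hp.node c
  room c := by
    simp only [TC.glue]
    split_ifs with h1
    · refine lt_of_le_of_lt ?_ (hq.room c)
      have : cnt (TC.glue a q p) c ≤ cnt q c := cnt_mono' (by
        rintro ι hι rfl
        simp only [TC.glue, Finset.mem_union, Finset.mem_filter] at hι
        rcases hι with h2 | h2
        · exact h2
        · exact absurd h2.2 (not_le.2 h1))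
      simp only [TC.glue] at this
      omega
    · refine lt_of_le_of_lt ?_ (hp.room c)
      have : cnt (TC.glue a q p) c ≤ cnt p c := cnt_mono' (by
        rintro ι hι rfl
        simp only [TC.glue, Finset.mem_union, Finset.mem_filter] at hι
        rcases hι with h2 | h2
        · exact absurd (hqa.2 ι h2) h1
        · exact h2.1)
      simp only [TC.glue] at this
      omega
  J ι hι := by
    simp only [TC.glue, Finset.mem_union, Finset.mem_filter] at hι
    rcases hι with h2 | h2
    · exact hq.J ι h2
    · exact hp.J ι h2.1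
  wit ι hι := by
    have hι' := hι
    simp only [TC.glue, Finset.mem_union, Finset.mem_filter] at hι'
    rcases hι' with h2 | h2
    · obtain ⟨q0, n, h3, h4, h5⟩ := hq.wit ι h2
      refine ⟨q0, n, h3, (glue_le_left hqa hp.node).trans h4, ?_⟩
      simp only [TC.glue, if_pos (hqa.2 ι h2)]
      exact h5
    · obtain ⟨q0, n, h3, h4, h5⟩ := hp.wit ι h2.1
      refine ⟨q0, n, h3, (glue_le_right h).trans h4, ?_⟩
      simp only [TC.glue, if_neg (not_lt.2 h2.2)]
      exact h5

end

end Pool.Agent.W866.TC
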