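import Pool.Agent.W866.TC.Defs

/-!
# Translates of a Cantor set: the conditions

A condition carries for each stage `a` a node `u a` (an initial segment of the real `t a`) and a
finite set `F` of indices `(a, i)`; if `(a, i)` is in `F`, then the condition asserts that
`x (a, i) + t a` is in the Cantor set, where `x (a, i)` is a real given by a name referring to
stages before `a` only.
-/

set_option autoImplicit false

namespace Pool.Agent.W866.TC

open Classical

/-- (raw) conditions -/
@[ext] structure Cond (W I : Type) where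
  u : W → ℕ × ℕ
  F : Finset (W × I)

variable {W I : Type}

/-- `p` is stronger than `q` -/
def Stronger (p q : Cond W I) : Prop := (∀ a, NExt (q.u a) (p.u a)) ∧ q.F ⊆ p.F

/-- the number of the indices of stage `a` in a condition -/
noncomputable def cnt (p : Cond W I) (a : W) : ℕ := (p.F.filter fun ι => ι.1 = a).card

/-- For a sum `k` of two nodes of level `l`: both `k` and `k + 1` are nodes of the Cantor set. -/
def GoodSum (l k : ℕ) : Prop := Kn l (k % B l) ∧ Kn l ((k + 1) % B l)

/-- names of reals: pairs of a condition and a node which it forces to be an initial segment -/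
abbrev Name (W I : Type) : Type := Set (Cond W I × (ℕ × ℕ))

/-- (raw) countable descriptions of an iteration: the stages, the indices, the names attached to
the indices, and the promises; a promise `(p, A)` says that `A` is predense below `p` -/
@[ext] structure RD (W I : Type) where
  w : Set W
  J : Set (W × I)
  nm : W × I → Name W I
  N : Set (Cond W I × Set (Cond W I))

/-- the conditions of the iteration described by `r` -/
structure Valid (r : RD W I) (p : Cond W I) : Prop where
  fin : {a | p.u a ≠ (0, 0)}.Finite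
  sub : ∀ a, p.u a ≠ (0, 0) → a ∈ r.w
  node : ∀ a, IsNode (p.u a)
  room : ∀ a, 3 * (cnt p a + 1) < b (p.u a).1
  J : ∀ ι ∈ p.F, ι ∈ r.J
  wit : ∀ ι ∈ p.F, ∃ q n, (q, n) ∈ r.nm ι ∧ Stronger p q ∧ (p.u ι.1).1 ≤ n.1 ∧
    GoodSum (p.u ι.1).1 (cut (p.u ι.1).1 n + (p.u ι.1).2)

/-- `A` is predense below `p` in the iteration described by `r` -/
def Predense (r : RD W I) (p : Cond W I) (A : Set (Cond W I)) : Prop :=
  ∀ q, Valid r q → Stronger q p → ∃ a ∈ A, ∃ s, Valid r s ∧ Stronger s q ∧ Stronger s a

/-- the conditions which decide the real named by `ν` up to level `l` -/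
def decide (ν : Name W I) (l : ℕ) : Set (Cond W I) := {q | ∃ n, (q, n) ∈ ν ∧ l ≤ n.1}

/-- `ν` is the name of a real in the iteration described by `r` -/
structure IsName (r : RD W I) (ν : Name W I) : Prop where
  valid : ∀ q n, (q, n) ∈ ν → Valid r q
  node : ∀ q n, (q, n) ∈ ν → IsNode n
  coh : ∀ q n q' n', (q, n) ∈ ν → (q', n') ∈ ν → ∀ s, Valid r s → Stronger s q →
    Stronger s q' → n.1 ≤ n'.1 → NExt n n'
  tot : ∀ q n, (q, n) ∈ ν → ∀ l, (q, decide ν l) ∈ r.N

section

variable [LinearOrder W]

/-- `p` refers to stages before `a` only -/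
def Below (a : W) (p : Cond W I) : Prop := (∀ c, p.u c ≠ (0, 0) → c < a) ∧ ∀ ι ∈ p.F, ι.1 < a

/-- descriptions of iterations -/
structure IsR (r : RD W I) : Prop where
  cw : r.w.Countable
  cJ : r.J.Countable
  Jw : ∀ ι ∈ r.J, ι.1 ∈ r.w
  junk : ∀ ι, ι ∉ r.J → r.nm ι = ∅
  name : ∀ ι ∈ r.J, IsName r (r.nm ι)
  below : ∀ ι ∈ r.J, ∀ q n, (q, n) ∈ r.nm ι → Below ι.1 q
  cN : r.N.Countable
  N1 : ∀ p A, (p, A) ∈ r.N → Valid r p ∧ ∀ q ∈ A, Valid r q
  N2 : ∀ p A, (p, A) ∈ r.N → Predense r p A

/-- the description `r'` extends the description `r` -/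
structure RLe (r' r : RD W I) : Prop where
  w : r.w ⊆ r'.w
  J : r.J ⊆ r'.J
  nm : ∀ ι ∈ r.J, r'.nm ι = r.nm ι
  N : r.N ⊆ r'.N

end

end Pool.Agent.W866.TC
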