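import Pool.Agent.Helper669.Forcing

/-!
# Translates of a Cantor set: definitions

Binary expansions are divided into blocks; block `m` has `m + 3` bits, so it is a number below
`b m = 2 ^ (m + 3)`. A node `(l, k)` with `k < B l = b 0 * ... * b (l - 1)` stands for a sequence
of `l` blocks, or for the interval `[k / B l, (k + 1) / B l]`.
-/

set_option autoImplicit false

namespace Pool.Agent.W866.TC

open Pool.Agent.Helper669.Forcing

/-- the base of block `m` -/
def b (m : ℕ) : ℕ := 2 ^ (m + 3)

/-- the number of the nodes of level `l` -/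
def B : ℕ → ℕ
  | 0 => 1
  | l + 1 => B l * b l

/-- the number of bits in the first `l` blocks; `B l = 2 ^ nb l` -/
def nb : ℕ → ℕ
  | 0 => 0
  | l + 1 => nb l + (l + 3)

/-- `(l, k)` is a node of level `l` -/
def IsNode (n : ℕ × ℕ) : Prop := n.2 < B n.1

/-- the restriction of a node to level `l` -/
def cut (l : ℕ) (m : ℕ × ℕ) : ℕ := m.2 / (B m.1 / B l)

/-- the node `m` extends the node `n` -/
def NExt (n m : ℕ × ℕ) : Prop := n.1 ≤ m.1 ∧ cut n.1 m = n.2

/-- the nodes of the Cantor set: no block is `b - 1` or `b - 2` -/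
def Kn : ℕ → ℕ → Prop
  | 0, k => k = 0
  | l + 1, k => Kn l (k / b l) ∧ k % b l + 3 ≤ b l

/-- nodes of the Cantor set -/
def KNode (n : ℕ × ℕ) : Prop := Kn n.1 n.2

/-- `n` is an initial segment of the binary sequence `x` -/
def Seg (n : ℕ × ℕ) (x : ℕ → Prop) : Prop :=
  ∀ i, i < nb n.1 → if n.2.testBit (nb n.1 - 1 - i) then x i else ¬ x i

/-- the sum of two nodes of the same level (modulo `1`) is determined up to one unit;
both possible values are extensions of the node `d` -/
def SumIn (d m u : ℕ × ℕ) : Prop :=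
  m.1 = u.1 ∧ NExt d (m.1, (m.2 + u.2) % B m.1) ∧ NExt d (m.1, (m.2 + u.2 + 1) % B m.1)

/-- `D j` is a dense set of nodes, for every `j` -/
def NDense (D : ℕ → ℕ × ℕ → Prop) : Prop :=
  ∀ j n, IsNode n → ∃ m, (NExt n m ∧ IsNode m) ∧ D j m

/-- `D j` is a dense set of nodes of the Cantor set, for every `j` -/
def KDense (D : ℕ → ℕ × ℕ → Prop) : Prop :=
  ∀ j n, KNode n → ∃ m, (NExt n m ∧ KNode m) ∧ D j m

/-- the binary sequence `x` is in the open sets given by the sets `D j` of nodes -/
def InAll (D : ℕ → ℕ × ℕ → Prop) (x : ℕ → Prop) : Prop := ∀ j, ∃ m, IsNode m ∧ D j m ∧ Seg m x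

/-- `x + t` is in the open sets given by the sets `D j` of nodes -/
def SumInAll (D : ℕ → ℕ × ℕ → Prop) (x t : ℕ → Prop) : Prop :=
  ∀ j, ∃ d, KNode d ∧ D j d ∧ ∃ m u, SumIn d m u ∧ Seg m x ∧ Seg u t

/-- The combinatorial principle. -/
def Star : Prop :=
  ∀ X : (ℕ → Prop) → Prop,
    (∀ D, NDense D → ∀ n, IsNode n → ∃ x, X x ∧ Seg n x ∧ InAll D x) →
    ∃ t : ℕ → Prop, ∀ D, KDense D → ∃ x, X x ∧ SumInAll D x t

/-- The statement of the problem. -/
def Translates : Prop :=
  ∃ K : Set ℝ, Nonempty (K ≃ₜ cantorSet) ∧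
    ∀ X : Set ℝ, ¬ IsMeagre X → ∃ t : ℝ, ¬ IsMeagre {y : K | (y : ℝ) ∈ (fun x => x + t) '' X}

section Names

variable {P : Type} [Preorder P]

/-- Forcing version of `Seg`. -/
def SegN (n : ℕ × ℕ) (x : ℕ → Set P) : Set P :=
  fall fun i => fall fun _ : i < nb n.1 =>
    if n.2.testBit (nb n.1 - 1 - i) then meets (x i) else fnot (meets (x i))

/-- Forcing version of `NDense`. -/
def NDenseN (D : ℕ → ℕ × ℕ → Set P) : Set P :=
  fall fun j => fall fun n => fall fun _ : IsNode n =>
    fex fun m => fand (fground (NExt n m ∧ IsNode m)) (meets (D j m))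

/-- Forcing version of `KDense`. -/
def KDenseN (D : ℕ → ℕ × ℕ → Set P) : Set P :=
  fall fun j => fall fun n => fall fun _ : KNode n =>
    fex fun m => fand (fground (NExt n m ∧ KNode m)) (meets (D j m))

/-- Forcing version of `InAll`. -/
def InAllN (D : ℕ → ℕ × ℕ → Set P) (x : ℕ → Set P) : Set P :=
  fall fun j => fex fun m => fand (fground (IsNode m)) (fand (meets (D j m)) (SegN m x))

/-- Forcing version of `SumInAll`. -/
def SumInAllN (D : ℕ → ℕ × ℕ → Set P) (x t : ℕ → Set P) : Set P :=
  fall fun j => fex fun d => fand (fground (KNode d)) (fand (meets (D j d))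
    (fex fun m => fex fun u => fand (fground (SumIn d m u)) (fand (SegN m x) (SegN u t))))

/-- The hypothesis on `X` in `Star`. -/
def EvN (X : (ℕ → Set P) → Set P) : Set P :=
  fall fun D : ℕ → ℕ × ℕ → Set P => fimp (NDenseN D) (fall fun n => fall fun _ : IsNode n =>
    fex fun x : ℕ → Set P => fand (meets (X x)) (fand (SegN n x) (InAllN D x)))

/-- The sentence `Star` of the forcing language. Names of sets of binary sequences are maps
which attach a set of conditions to every name of a binary sequence. -/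
def StarHolds (P : Type) [Preorder P] : Set P :=
  fall fun X : (ℕ → Set P) → Set P => fimp (EvN X)
    (fex fun t : ℕ → Set P => fall fun D : ℕ → ℕ × ℕ → Set P => fimp (KDenseN D)
      (fex fun x : ℕ → Set P => fand (meets (X x)) (SumInAllN D x t)))

end Names

end Pool.Agent.W866.TC
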