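import Pool.Agent.W866.TC.Low

/-!
# Translates of a Cantor set: the dense families
-/

set_option autoImplicit false
set_option linter.unusedSectionVars false

namespace Pool.Agent.W866.TC

open Classical

theorem exists_ext {n : ℕ × ℕ} (hn : IsNode n) {l : ℕ} (h : n.1 ≤ l) :
    ∃ k < B l, NExt n (l, k) := by
  refine ⟨n.2 * (B l / B n.1), ?_, h, ?_⟩
  · calc n.2 * (B l / B n.1) < B n.1 * (B l / B n.1) :=
        Nat.mul_lt_mul_of_pos_right hn (B_div_pos h)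
      _ = B l := B_mul_div h
  · simp only [cut]
    exact Nat.mul_div_cancel _ (B_div_pos h)

theorem exists_b_gt (N l : ℕ) : ∃ l', l ≤ l' ∧ N < b l' := by
  refine ⟨l + N, Nat.le_add_right _ _, ?_⟩
  calc N < 2 ^ N := Nat.lt_two_pow_self
    _ ≤ b (l + N) := Nat.pow_le_pow_right (by norm_num) (by omega)

theorem exists_good (h : S_EXT) (l u : ℕ) (hu : u < B l) : ∃ x < B l, GoodSum l (x + u) := by
  obtain ⟨x, hx, _, h2⟩ := h 0 l (Nat.zero_le l) {u} 0 (by simp [B]) (by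
    intro y hy
    rw [Finset.mem_singleton] at hy
    subst hy
    refine ⟨hu, ?_⟩
    rw [cut_zero (m := (l, y)) hu]
    simp [GoodSum, Kn, B, Nat.mod_one]) (by simp [b])
  refine ⟨x, hx, ?_⟩
  rw [add_comm]
  exact h2 u (Finset.mem_singleton_self u)

variable {W I : Type} [LinearOrder W]

/-- the family attached to `Φ` and to the condition `p` -/
def UU (r : RD W I) (a : W) (p : Cond W I) (Φ : Cond W I → ℕ × ℕ → Prop) : Name W I :=
  {x | Valid r x.1 ∧ Below a x.1 ∧ IsNode x.2 ∧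
    ((∀ t, Valid r t → Below a t → Stronger t x.1 → ¬ Stronger t (restrB a p)) ∨
     ((p.u a).1 ≤ x.2.1 ∧ ¬ GoodSum (p.u a).1 (cut (p.u a).1 x.2 + (p.u a).2)) ∨
     ∃ q2, Valid r q2 ∧ Stronger q2 p ∧ Φ q2 x.2 ∧ Stronger x.1 (restrB a q2))}

/-- the density property of `Φ` -/
def DP (r : RD W I) (a : W) (p : Cond W I) (Φ : Cond W I → ℕ × ℕ → Prop) : Prop :=
  ∀ p' s, Valid r p' → Stronger p' p → s < B (p'.u a).1 →
    GoodSum (p'.u a).1 (s + (p'.u a).2) →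
    ∃ q2 s', Valid r q2 ∧ Stronger q2 p' ∧ NExt ((p'.u a).1, s) s' ∧ IsNode s' ∧ Φ q2 s'

variable {r : RD W I} {a : W}

theorem UU_dense (hE : S_EXTEND W I) (hr : IsR r) (ha : a ∈ r.w) {p : Cond W I}
    (hp : Valid r p) {Φ : Cond W I → ℕ × ℕ → Prop} (h : DP r a p Φ) (n : ℕ × ℕ) (hn : IsNode n)
    (q : Cond W I) (hq : Valid r q) (hqa : Below a q) :
    ∃ q' s, Valid r q' ∧ Below a q' ∧ Stronger q' q ∧ NExt n s ∧ (q', s) ∈ UU r a p Φ := by
  by_cases h1 : ∃ t, Valid r t ∧ Below a t ∧ Stronger t q ∧ Stronger t (restrB a p)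
  swap
  · push Not at h1
    exact ⟨q, n, hq, hqa, Stronger.refl _, NExt.refl _, hq, hqa, hn, Or.inl h1⟩
  obtain ⟨t, ht1, ht2, ht3, ht4⟩ := h1
  obtain ⟨k, hk, hnk⟩ := exists_ext hn (l := max n.1 (p.u a).1) (le_max_left _ _)
  by_cases h2 : GoodSum (p.u a).1 (cut (p.u a).1 (max n.1 (p.u a).1, k) + (p.u a).2)
  swap
  · exact ⟨t, _, ht1, ht2, ht3, hnk, ht1, ht2, hk, Or.inr (Or.inl ⟨le_max_right _ _, h2⟩)⟩
  obtain ⟨p', hp1, hp2, hp3, hp4, hp5, _⟩ := hE r p t a (max n.1 (p.u a).1) k hr hp ha ht1 ht2 ht4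
    (le_max_right _ _) hk h2
  obtain ⟨q2, s', h3, h4, h5, h6, h7⟩ := h p' k hp1 hp2 (by rw [hp4]; exact hk)
    (by rw [hp4]; exact hp5)
  rw [hp4] at h5
  refine ⟨restrB a q2, s', h3.restrB hr a, below_restrB a q2,
    (((h4.trans hp3).to_restrB ht2).trans ht3), hnk.trans h5, h3.restrB hr a, below_restrB a q2,
    h6, Or.inr (Or.inr ⟨q2, h3, h4.trans hp2, h7, Stronger.refl _⟩)⟩

/-- making the nodes longer -/
theorem grow (hE : S_EXTEND W I) (hr : IsR r) (ha : a ∈ r.w) {p : Cond W I}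
    (hp : Valid r p) {s : ℕ} (hs : s < B (p.u a).1) (h : GoodSum (p.u a).1 (s + (p.u a).2))
    {l : ℕ} (hl : (p.u a).1 ≤ l) :
    ∃ p' s', Valid r p' ∧ Stronger p' p ∧ (p'.u a).1 = l ∧ NExt ((p.u a).1, s) (l, s') ∧
      s' < B l ∧ GoodSum l (s' + (p'.u a).2) ∧ cnt p' a = cnt p a := by
  obtain ⟨s', hs', h1⟩ := exists_ext (n := ((p.u a).1, s)) hs hl
  have h2 : cut (p.u a).1 (l, s') = s := h1.2
  obtain ⟨p', h3, h4, _, h5, h6, h7⟩ := hE r p (restrB a p) a l s' hr hp ha (hp.restrB hr a)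
    (below_restrB a p) (Stronger.refl _) hl hs' (by rw [h2]; exact h)
  exact ⟨p', s', h3, h4, h5, h1, hs', h6, h7⟩

/-- there is room for one more index at stage `a` -/
def Room2 (q : Cond W I) (a : W) : Prop := 3 * (cnt q a + 2) < b (q.u a).1

theorem grow_room (hE : S_EXTEND W I) (hr : IsR r) (ha : a ∈ r.w) {p : Cond W I}
    (hp : Valid r p) {s : ℕ} (hs : s < B (p.u a).1) (h : GoodSum (p.u a).1 (s + (p.u a).2))
    (l0 : ℕ) :
    ∃ p' s', Valid r p' ∧ Stronger p' p ∧ NExt ((p.u a).1, s) ((p'.u a).1, s') ∧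
      s' < B (p'.u a).1 ∧ GoodSum (p'.u a).1 (s' + (p'.u a).2) ∧ Room2 p' a ∧
      l0 ≤ (p'.u a).1 := by
  obtain ⟨l, hl, hl'⟩ := exists_b_gt (3 * (cnt p a + 2)) (max (p.u a).1 l0)
  obtain ⟨p', s', h1, h2, h3, h4, h5, h6, h7⟩ := grow hE hr ha hp hs h
    ((le_max_left _ _).trans hl)
  refine ⟨p', s', h1, h2, ?_, ?_, ?_, ?_, ?_⟩
  · rw [h3]; exact h4
  · rw [h3]; exact h5
  · rw [h3]; exact h6
  · rw [Room2, h3, h7]; exact hl'
  · rw [h3]; exact (le_max_right _ _).trans hl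

/-- basic part of the families -/
def Fit (a : W) (q : Cond W I) (s : ℕ × ℕ) : Prop :=
  s.1 = (q.u a).1 ∧ GoodSum s.1 (s.2 + (q.u a).2) ∧ Room2 q a

/-- the first family -/
def Phi1 (a : W) (A : Set (Cond W I)) (q : Cond W I) (s : ℕ × ℕ) : Prop :=
  (∃ e ∈ A, Stronger q e) ∧ Fit a q s

/-- the second family -/
def Phi2 (a : W) (E : ℕ × ℕ → Set (Cond W I)) (q : Cond W I) (s : ℕ × ℕ) : Prop :=
  (∃ d, KNode d ∧ (∃ e ∈ E d, Stronger q e) ∧ SumIn d s (q.u a)) ∧ Fit a q s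

theorem dp_phi1 (hX : S_EXT) (hE : S_EXTEND W I) (hr : IsR r) (ha : a ∈ r.w)
    {pA : Cond W I} {A : Set (Cond W I)} (hA : (pA, A) ∈ r.N) {p : Cond W I}
    (hpA : Stronger p pA) : DP r a p (Phi1 a A) := by
  intro p' s hp' hpp hs hg
  obtain ⟨e, he, q, hq1, hq2, hq3⟩ := hr.N2 pA A hA p' hp' (hpp.trans hpA)
  have hn := hq2.1 a
  obtain ⟨s1, hs1, h1, h2⟩ := hX (p'.u a).1 (q.u a).1 hn.1 {(q.u a).2} s hs (by
    intro x hx
    rw [Finset.mem_singleton] at hx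
    subst hx
    refine ⟨hq1.node a, ?_⟩
    have : cut (p'.u a).1 (q.u a) = (p'.u a).2 := hn.2
    have h3 : cut (p'.u a).1 ((q.u a).1, (q.u a).2) = (p'.u a).2 := this
    rw [h3, add_comm]
    exact hg) (by
      rw [Finset.card_singleton]
      have := eight_le_b (p'.u a).1
      omega)
  have h3 := h2 _ (Finset.mem_singleton_self _)
  rw [add_comm] at h3
  obtain ⟨q2, s2, h4, h5, h6, h7, h8, h9, _⟩ := grow_room hE hr ha hq1 hs1 h3 0
  refine ⟨q2, ((q2.u a).1, s2), h4, h5.trans hq2, ?_, h7, ⟨e, he, h5.trans hq3⟩, rfl, h8, h9⟩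
  exact NExt.trans (⟨hn.1, h1⟩ : NExt ((p'.u a).1, s) ((q.u a).1, s1)) h6

theorem dp_phi2 (hX : S_EXT) (hH : S_HIT2) (hE : S_EXTEND W I) (hr : IsR r) (ha : a ∈ r.w)
    {p1 : Cond W I} {E : ℕ × ℕ → Set (Cond W I)}
    (hD : ∀ n, KNode n → Predense r p1 {e | ∃ d, NExt n d ∧ KNode d ∧ e ∈ E d}) {p : Cond W I}
    (hpA : Stronger p p1) : DP r a p (Phi2 a E) := by
  intro p' s hp' hpp hs hg
  -- one more block
  have hb := eight_le_b (p'.u a).1
  have hs' : s * b (p'.u a).1 + 1 < B ((p'.u a).1 + 1) := by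
    rw [B_succ]
    nlinarith
  have hdiv : (s * b (p'.u a).1 + 1) / b (p'.u a).1 = s := by
    rw [Nat.add_comm, Nat.add_mul_div_right _ _ (b_pos _), Nat.div_eq_of_lt (by omega), zero_add]
  have hmod : (s * b (p'.u a).1 + 1) % b (p'.u a).1 = 1 := by
    rw [Nat.add_comm, Nat.add_mul_mod_self_right, Nat.mod_eq_of_lt (by omega)]
  obtain ⟨p2, h1, h2, _, h3, h4, _⟩ := hE r p' (restrB a p') a ((p'.u a).1 + 1)
    (s * b (p'.u a).1 + 1) hr hp' ha (hp'.restrB hr a) (below_restrB a p') (Stronger.refl _)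
    (Nat.le_succ _) hs' (by rw [cut_succ, hdiv]; exact hg)
  obtain ⟨e, ⟨d, hd1, hd2, hd3⟩, q, hq1, hq2, hq3⟩ := hD ((p'.u a).1 + 1,
    (s * b (p'.u a).1 + 1 + (p2.u a).2) % B ((p'.u a).1 + 1)) h4.1 p2 h1
    (h2.trans (hpp.trans hpA))
  obtain ⟨x, hx, hxg⟩ := exists_good hX (q.u a).1 (q.u a).2 (hq1.node a)
  obtain ⟨q2, s2, h5, h6, h7, h8, h9, h10, h11⟩ := grow_room hE hr ha hq1 hx hxg (d.1 + 1)
  have hn2 : NExt (p2.u a) (q2.u a) := (hq2.1 a).trans (h6.1 a)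
  obtain ⟨s3, hs3, h12, h13, h14⟩ := hH (p'.u a).1 (q2.u a).1 (s * b (p'.u a).1 + 1) (p2.u a).2
    (q2.u a).2 d hs' (by rw [hmod]) (by
      have := h1.node a
      rw [IsNode, h3] at this
      exact this) hd2 hd1 h11 (h5.node a) (by
      have := hn2.2
      rw [h3] at this
      exact this)
  rw [hdiv] at h12
  refine ⟨q2, ((q2.u a).1, s3), h5, h6.trans (hq2.trans h2), ⟨?_, h12⟩, hs3,
    ⟨⟨d, hd2, ⟨e, hd3, h6.trans hq3⟩, h14⟩, rfl, h13, h10⟩⟩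
  exact (h2.1 a).1.trans hn2.1

end Pool.Agent.W866.TC
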