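import Pool.Agent.W866.TC.Step2

/-!
# Translates of a Cantor set: the forcing notion, names of reals
-/

set_option autoImplicit false
set_option linter.unusedSectionVars false

namespace Pool.Agent.W866.TC

open Classical Pool.Agent.Helper669.Forcing

/-! ### Initial segments -/

section Seg

variable {P : Type} [Preorder P]

theorem down_ite {c : Prop} [Decidable c] {φ ψ : Set P} (h1 : Down φ) (h2 : Down ψ) :
    Down (if c then φ else ψ) := by
  split_ifs
  · exact h1
  · exact h2

theorem down_SegN (n : ℕ × ℕ) (x : ℕ → Set P) : Down (SegN n x) :=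
  down_fall fun _ => down_fall fun _ => down_ite (down_meets _) (down_fnot _)

theorem testBit_cut {l : ℕ} {m : ℕ × ℕ} (h : l ≤ m.1) {i : ℕ} (hi : i < nb l) :
    (cut l m).testBit (nb l - 1 - i) = m.2.testBit (nb m.1 - 1 - i) := by
  have h1 := nb_mono h
  unfold cut
  rw [B_eq_pow, B_eq_pow, Nat.pow_div h1 (by norm_num), ← Nat.shiftRight_eq_div_pow,
    Nat.testBit_shiftRight]
  congr 1
  omega

theorem segN_cut {l : ℕ} {m : ℕ × ℕ} (h : l ≤ m.1) {x : ℕ → Set P} {p : P}
    (hp : p ∈ SegN m x) : p ∈ SegN (l, cut l m) x := by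
  intro i hi
  have h1 := hp i (lt_of_lt_of_le hi (nb_mono h))
  have h2 := testBit_cut h hi
  show p ∈ if (cut l m).testBit (nb l - 1 - i) then meets (x i) else fnot (meets (x i))
  rw [h2]
  exact h1

theorem segN_ext {n m : ℕ × ℕ} (h : NExt n m) {x : ℕ → Set P} {p : P}
    (hp : p ∈ SegN m x) : p ∈ SegN n x := by
  have := segN_cut h.1 hp
  rwa [h.2] at this

theorem exists_bits (x : ℕ → Set P) (p : P) (N : ℕ) : ∃ q ≤ p, ∃ k < 2 ^ N, ∀ i, i < N →
    q ∈ if k.testBit (N - 1 - i) then meets (x i) else fnot (meets (x i)) := by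
  induction N with
  | zero => exact ⟨p, le_rfl, 0, by norm_num, fun i hi => absurd hi (Nat.not_lt_zero _)⟩
  | succ N ih =>
    obtain ⟨q, hq, k, hk, h⟩ := ih
    by_cases h1 : ∃ r ≤ q, r ∈ meets (x N)
    · obtain ⟨r, hr, hr'⟩ := h1
      refine ⟨r, hr.trans hq, 2 * k + 1, by rw [pow_succ]; omega, fun i hi => ?_⟩
      rcases Nat.lt_succ_iff_lt_or_eq.1 hi with h2 | rfl
      · have h3 : (2 * k + 1).testBit (N + 1 - 1 - i) = k.testBit (N - 1 - i) := by
          have e : N + 1 - 1 - i = (N - 1 - i) + 1 := by omega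
          rw [e, Nat.testBit_succ]
          congr 1
          omega
        rw [h3]
        exact down_ite (down_meets _) (down_fnot _) _ (h i h2) _ hr
      · have h3 : (2 * k + 1).testBit (i + 1 - 1 - i) = true := by
          have e : i + 1 - 1 - i = 0 := by omega
          rw [e, Nat.testBit_zero]
          simp
        rw [h3]
        simpa using hr'
    · push Not at h1
      refine ⟨q, hq, 2 * k, by rw [pow_succ]; omega, fun i hi => ?_⟩
      rcases Nat.lt_succ_iff_lt_or_eq.1 hi with h2 | rfl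
      · have h3 : (2 * k).testBit (N + 1 - 1 - i) = k.testBit (N - 1 - i) := by
          have e : N + 1 - 1 - i = (N - 1 - i) + 1 := by omega
          rw [e, Nat.testBit_succ]
          congr 1
          omega
        rw [h3]
        exact h i h2
      · have h3 : (2 * k).testBit (i + 1 - 1 - i) = false := by
          have e : i + 1 - 1 - i = 0 := by omega
          rw [e, Nat.testBit_zero]
          simp
        rw [h3, if_neg (by simp)]
        exact h1

theorem exists_segN (x : ℕ → Set P) (p : P) (l : ℕ) :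
    ∃ q ≤ p, ∃ k < B l, q ∈ SegN (l, k) x := by
  obtain ⟨q, hq, k, hk, h⟩ := exists_bits x p (nb l)
  exact ⟨q, hq, k, by rw [B_eq_pow]; exact hk, fun i hi => h i hi⟩

theorem segN_unique {x : ℕ → Set P} {p : P} {l k k' : ℕ} (hk : k < B l) (hk' : k' < B l)
    (h : p ∈ SegN (l, k) x) (h' : p ∈ SegN (l, k') x) : k = k' := by
  apply Nat.eq_of_testBit_eq
  intro i
  by_cases hi : i < nb l
  · have h1 := h (nb l - 1 - i) (by show _ < nb l; omega)
    have h2 := h' (nb l - 1 - i) (by show _ < nb l; omega)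
    have e : nb l - 1 - (nb l - 1 - i) = i := by omega
    simp only [e] at h1 h2
    cases h3 : k.testBit i <;> cases h4 : k'.testBit i
    · rfl
    · rw [h3] at h1
      rw [h4] at h2
      simp only [Bool.false_eq_true, if_false, if_true] at h1 h2
      exact absurd h2 (h1 p le_rfl)
    · rw [h3] at h1
      rw [h4] at h2
      simp only [Bool.false_eq_true, if_false, if_true] at h1 h2
      exact absurd h1 (h2 p le_rfl)
    · rfl
  · rw [B_eq_pow] at hk hk'
    have hle : 2 ^ nb l ≤ 2 ^ i := Nat.pow_le_pow_right (by norm_num) (by omega)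
    rw [Nat.testBit_lt_two_pow (hk.trans_le hle), Nat.testBit_lt_two_pow (hk'.trans_le hle)]

theorem segN_coh {x : ℕ → Set P} {p : P} {n m : ℕ × ℕ} (hn : IsNode n) (hm : IsNode m)
    (h : p ∈ SegN n x) (h' : p ∈ SegN m x) (hle : n.1 ≤ m.1) : NExt n m :=
  ⟨hle, (segN_unique (l := n.1) hn (cut_lt hle hm) h (segN_cut hle h')).symm⟩

end Seg

/-! ### The forcing notion -/

variable (W I : Type) [LinearOrder W]

/-- the forcing notion: a description of an iteration and a condition of this iteration -/
def TP : Type := {x : RD W I × Cond W I // IsR x.1 ∧ Valid x.1 x.2}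

variable {W I}

instance : Preorder (TP W I) where
  le x y := RLe x.1.1 y.1.1 ∧ Stronger x.1.2 y.1.2
  le_refl x := ⟨RLe.refl _, Stronger.refl _⟩
  le_trans x y z h h' := ⟨h.1.trans h'.1, h.2.trans h'.2⟩

/-- the element of the forcing notion -/
def mk {r : RD W I} {p : Cond W I} (hr : IsR r) (hp : Valid r p) : TP W I := ⟨(r, p), hr, hp⟩

theorem TP.le_def {x y : TP W I} : x ≤ y ↔ RLe x.1.1 y.1.1 ∧ Stronger x.1.2 y.1.2 := Iff.rfl

theorem isR_empty : IsR (⟨∅, ∅, fun _ => ∅, ∅⟩ : RD W I) where
  cw := Set.countable_empty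
  cJ := Set.countable_empty
  Jw _ h := absurd h (Set.notMem_empty _)
  junk _ _ := rfl
  name _ h := absurd h (Set.notMem_empty _)
  below _ h := absurd h (Set.notMem_empty _)
  cN := Set.countable_empty
  N1 _ _ h := absurd h (Set.notMem_empty _)
  N2 _ _ h := absurd h (Set.notMem_empty _)

/-- adding promises -/
theorem isR_addN {r : RD W I} (hr : IsR r) {N' : Set (Cond W I × Set (Cond W I))}
    (hN' : N'.Countable) (h1 : ∀ p A, (p, A) ∈ N' → Valid r p ∧ ∀ q ∈ A, Valid r q)
    (h2 : ∀ p A, (p, A) ∈ N' → Predense r p A) :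
    IsR (⟨r.w, r.J, r.nm, r.N ∪ N'⟩ : RD W I) := by
  have hv : ∀ p, Valid (⟨r.w, r.J, r.nm, r.N ∪ N'⟩ : RD W I) p ↔ Valid r p := by
    intro p
    constructor
    · intro h
      exact Valid.mono' (r := ⟨r.w, r.J, r.nm, r.N ∪ N'⟩) (r' := r) subset_rfl subset_rfl
        (fun _ _ => rfl) h
    · intro h
      exact Valid.mono' (r := r) (r' := ⟨r.w, r.J, r.nm, r.N ∪ N'⟩) subset_rfl subset_rfl
        (fun _ _ => rfl) h
  have hpd : ∀ p A, Predense r p A → Predense (⟨r.w, r.J, r.nm, r.N ∪ N'⟩ : RD W I) p A := by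
    intro p A h q hq hqp
    obtain ⟨a, ha, s, hs, h3⟩ := h q ((hv q).1 hq) hqp
    exact ⟨a, ha, s, (hv s).2 hs, h3⟩
  refine ⟨hr.cw, hr.cJ, hr.Jw, hr.junk, ?_, hr.below, hr.cN.union hN', ?_, ?_⟩
  · intro ι hι
    have h := hr.name ι hι
    refine ⟨fun q n hq => (hv q).2 (h.valid q n hq), h.node, ?_, ?_⟩
    · intro q n q' n' hq hq' s hs
      exact h.coh q n q' n' hq hq' s ((hv s).1 hs)
    · intro q n hq l
      exact Or.inl (h.tot q n hq l)
  · rintro p A (hA | hA)
    · exact ⟨(hv p).2 (hr.N1 p A hA).1, fun q hq => (hv q).2 ((hr.N1 p A hA).2 q hq)⟩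
    · exact ⟨(hv p).2 (h1 p A hA).1, fun q hq => (hv q).2 ((h1 p A hA).2 q hq)⟩
  · rintro p A (hA | hA)
    · exact hpd p A (hr.N2 p A hA)
    · exact hpd p A (h2 p A hA)

/-! ### Adding a stage -/

/-- a new stage without indices -/
def addw (r : RD W I) (a : W) : RD W I := ⟨insert a r.w, r.J, r.nm, r.N⟩

theorem rle_addw (r : RD W I) (a : W) : RLe (addw r a) r :=
  ⟨Set.subset_insert _ _, subset_rfl, fun _ _ => rfl, subset_rfl⟩

/-- stages outside `r` are taken from `q` -/
noncomputable def mix (r : RD W I) (s q : Cond W I) : Cond W I :=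
  ⟨fun c => if c ∈ r.w then s.u c else q.u c, s.F⟩

theorem isR_addw {r : RD W I} (hr : IsR r) (a : W) : IsR (addw r a) where
  cw := hr.cw.insert a
  cJ := hr.cJ
  Jw ι hι := Or.inr (hr.Jw ι hι)
  junk := hr.junk
  name ι hι := by
    have h := hr.name ι hι
    refine ⟨fun q n hq => (h.valid q n hq).mono (rle_addw r a), h.node, ?_, h.tot⟩
    intro q n q' n' hq hq' s hs h1 h2
    exact h.coh q n q' n' hq hq' (restrR r s) (hs.restrR hr (rle_addw r a))
      (h1.to_restrR (h.valid q n hq)) (h2.to_restrR (h.valid q' n' hq'))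
  below := hr.below
  cN := hr.cN
  N1 p A hA := ⟨(hr.N1 p A hA).1.mono (rle_addw r a),
    fun q hq => ((hr.N1 p A hA).2 q hq).mono (rle_addw r a)⟩
  N2 p A hA := by
    intro q hq hqp
    obtain ⟨e, he, s, hs, hsq, hse⟩ := hr.N2 p A hA (restrR r q)
      (hq.restrR hr (rle_addw r a)) (hqp.to_restrR (hr.N1 p A hA).1)
    have hms : ∀ {q0 : Cond W I}, Valid r q0 → Stronger s q0 → Stronger (mix r s q) q0 := by
      intro q0 hq0 h0
      refine ⟨fun c => ?_, h0.2⟩
      simp only [mix]
      split_ifs with hc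
      · exact h0.1 c
      · have : q0.u c = (0, 0) := by
          by_contra h2
          exact hc (hq0.sub c h2)
        rw [this]
        exact nExt_zero (hq.node c)
    refine ⟨e, he, mix r s q, ?_, ?_, hms ((hr.N1 p A hA).2 e he) hse⟩
    · refine ⟨?_, ?_, ?_, ?_, hs.J, ?_⟩
      · refine (hs.fin.union hq.fin).subset fun c hc => ?_
        simp only [mix, Set.mem_ofPred_eq] at hc
        split_ifs at hc
        · exact Or.inl hc
        · exact Or.inr hc
      · intro c hc
        simp only [mix] at hc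
        split_ifs at hc with h1
        · exact Or.inr h1
        · exact hq.sub c hc
      · intro c
        simp only [mix]
        split_ifs
        · exact hs.node c
        · exact hq.node c
      · intro c
        simp only [mix]
        split_ifs with h1
        · exact hs.room c
        · have : cnt (mix r s q) c = 0 := cnt_eq_zero (by
            rintro ι hι rfl
            exact h1 (hr.Jw ι (hs.J ι hι)))
          simp only [mix] at this
          rw [this]
          have := eight_le_b (q.u c).1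
          omega
      · intro ι hι
        obtain ⟨q0, n, h1, h2, h3⟩ := hs.wit ι hι
        refine ⟨q0, n, h1, hms ((hr.name ι (hs.J ι hι)).valid q0 n h1) h2, ?_⟩
        simp only [mix, if_pos (hr.Jw ι (hs.J ι hι))]
        exact h3
    · refine ⟨fun c => ?_, fun ι hι => hsq.2 ?_⟩
      · simp only [mix]
        split_ifs with h1
        · have := hsq.1 c
          simp only [restrR, if_pos h1] at this
          exact this
        · exact NExt.refl _
      · simp only [restrR, Finset.mem_filter]
        exact ⟨hι, hq.J ι hι⟩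

/-! ### The generic real at stage `a` -/

/-- the name of the real added at stage `a` -/
def tN (a : W) : ℕ → Set (TP W I) := fun i =>
  {t | i < nb (t.1.2.u a).1 ∧ (t.1.2.u a).2.testBit (nb (t.1.2.u a).1 - 1 - i) = true}

theorem seg_tN (a : W) (t : TP W I) : t ∈ SegN (t.1.2.u a) (tN a) := by
  intro i hi
  have key : ∀ t' : TP W I, t' ≤ t → (t'.1.2.u a).2.testBit (nb (t'.1.2.u a).1 - 1 - i) =
      (t.1.2.u a).2.testBit (nb (t.1.2.u a).1 - 1 - i) := by
    intro t' ht'
    have h := ht'.2.1 a
    have h2 := testBit_cut h.1 hi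
    rw [h.2] at h2
    exact h2.symm
  cases h : (t.1.2.u a).2.testBit (nb (t.1.2.u a).1 - 1 - i)
  · simp only [Bool.false_eq_true, if_false]
    intro q hq hqm
    obtain ⟨r, hr, s, hs, hrs⟩ := hqm q le_rfl
    have h1 := key r (hr.trans hq)
    have h2 := hrs.2.1 a
    have h3 := testBit_cut h2.1 hs.1
    rw [h2.2] at h3
    rw [← h3, hs.2, h] at h1
    exact absurd h1 (by simp)
  · simp only [if_true]
    exact meets_of_mem ⟨hi, h⟩

theorem seg_tN' (a : W) {t : TP W I} {g : Cond W I} (h : Stronger t.1.2 g) :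
    t ∈ SegN (g.u a) (tN a) := segN_ext (h.1 a) (seg_tN a t)

end Pool.Agent.W866.TC
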