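import Pool.Agent.W866.TC.Basic

/-!
# Translates of a Cantor set: the restriction of a description to the stages before `a`
-/

set_option autoImplicit false
set_option linter.unusedSectionVars false

namespace Pool.Agent.W866.TC

open Classical

variable {W I : Type} [LinearOrder W]

/-- the trivial condition -/
def triv : Cond W I := ⟨fun _ => (0, 0), ∅⟩

theorem stronger_triv {p : Cond W I} (hp : ∀ c, IsNode (p.u c)) : Stronger p triv :=
  ⟨fun c => nExt_zero (hp c), Finset.empty_subset _⟩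

theorem valid_triv (r : RD W I) : Valid r (triv : Cond W I) where
  fin := by simp [triv]
  sub a ha := absurd rfl ha
  node a := isNode_zero
  room a := by
    have : cnt (triv : Cond W I) a = 0 := cnt_eq_zero (by simp [triv])
    rw [this]
    simp [triv, b]
  J ι hι := by simp [triv] at hι
  wit ι hι := by simp [triv] at hι

theorem below_triv (a : W) : Below a (triv : Cond W I) :=
  ⟨fun _ hc => absurd rfl hc, fun _ hι => by simp [triv] at hι⟩

/-- the conditions which know an extension of `n` in the named family `ν` -/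
def know (r : RD W I) (ν : Name W I) (n : ℕ × ℕ) : Set (Cond W I) :=
  {q | Valid r q ∧ ∃ q1 s, (q1, s) ∈ ν ∧ NExt n s ∧ Stronger q q1}

/-- the part of `r` below stage `a`, with promises about the families `U` -/
def low (r : RD W I) (a : W) (U : ℕ → Name W I) : RD W I where
  w := {c | c ∈ r.w ∧ c < a}
  J := {ι | ι ∈ r.J ∧ ι.1 < a}
  nm := fun ι => {x | x ∈ r.nm ι ∧ ι.1 < a}
  N := {x | x ∈ r.N ∧ Below a x.1 ∧ ∀ q ∈ x.2, Below a q} ∪
    {x | ∃ j n, IsNode n ∧ x = (triv, {q | q ∈ know r (U j) n ∧ Below a q})}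

variable {r : RD W I} {a : W} {U : ℕ → Name W I}

theorem low_nm {ι : W × I} (h : ι.1 < a) : (low r a U).nm ι = r.nm ι := by
  ext x
  exact ⟨fun hx => hx.1, fun hx => ⟨hx, h⟩⟩

theorem valid_low (hr : IsR r) {p : Cond W I} :
    Valid (low r a U) p ↔ Valid r p ∧ Below a p := by
  constructor
  · intro h
    refine ⟨Valid.mono' (r := low r a U) (r' := r) (fun c hc => hc.1) (fun ι hι => hι.1)
      (fun ι hι => (low_nm hι.2).symm) h, ?_, ?_⟩
    · exact fun c hc => (h.sub c hc).2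
    · exact fun ι hι => (h.J ι hι).2
  · rintro ⟨h, h1, h2⟩
    refine ⟨h.fin, fun c hc => ⟨h.sub c hc, h1 c hc⟩, h.node, h.room,
      fun ι hι => ⟨h.J ι hι, h2 ι hι⟩, fun ι hι => ?_⟩
    rw [low_nm (h2 ι hι)]
    exact h.wit ι hι

theorem Below.mono {a a' : W} (h : a ≤ a') {p : Cond W I} (hp : Below a p) : Below a' p :=
  ⟨fun c hc => (hp.1 c hc).trans_le h, fun ι hι => (hp.2 ι hι).trans_le h⟩

theorem isR_low (hr : IsR r)
    (hU : ∀ j n, IsNode n → ∀ q, Valid r q → Below a q →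
      ∃ q' s, Valid r q' ∧ Below a q' ∧ Stronger q' q ∧ NExt n s ∧ (q', s) ∈ U j) :
    IsR (low r a U) where
  cw := hr.cw.mono fun c hc => hc.1
  cJ := hr.cJ.mono fun c hc => hc.1
  Jw ι hι := ⟨hr.Jw ι hι.1, hι.2⟩
  junk ι hι := by
    rw [Set.eq_empty_iff_forall_notMem]
    rintro x ⟨hx, h1⟩
    by_cases h2 : ι ∈ r.J
    · exact hι ⟨h2, h1⟩
    · rw [hr.junk ι h2] at hx
      exact hx
  name ι hι := by
    have h := hr.name ι hι.1
    rw [low_nm hι.2]
    refine ⟨fun q n hq => ?_, h.node, ?_, ?_⟩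
    · exact (valid_low hr).2 ⟨h.valid q n hq, (hr.below ι hι.1 q n hq).mono hι.2.le⟩
    · intro q n q' n' hq hq' s hs
      exact h.coh q n q' n' hq hq' s ((valid_low hr).1 hs).1
    · intro q n hq l
      refine Or.inl ⟨h.tot q n hq l, (hr.below ι hι.1 q n hq).mono hι.2.le, ?_⟩
      rintro q' ⟨n', hq', _⟩
      exact (hr.below ι hι.1 q' n' hq').mono hι.2.le
  below ι hι q n hq := by
    rw [low_nm hι.2] at hq
    exact hr.below ι hι.1 q n hq
  cN := by
    refine (hr.cN.mono fun x hx => hx.1).union ?_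
    have : {x : Cond W I × Set (Cond W I) | ∃ j n, IsNode n ∧
        x = (triv, {q | q ∈ know r (U j) n ∧ Below a q})} ⊆
        Set.range fun y : ℕ × (ℕ × ℕ) =>
          ((triv, {q | q ∈ know r (U y.1) y.2 ∧ Below a q}) : Cond W I × Set (Cond W I)) := by
      rintro x ⟨j, n, _, rfl⟩
      exact ⟨(j, n), rfl⟩
    exact (Set.countable_range _).mono this
  N1 p A hpA := by
    rcases hpA with ⟨h1, h2, h3⟩ | ⟨j, n, hn, h⟩
    · obtain ⟨h4, h5⟩ := hr.N1 p A h1
      exact ⟨(valid_low hr).2 ⟨h4, h2⟩, fun q hq => (valid_low hr).2 ⟨h5 q hq, h3 q hq⟩⟩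
    · obtain ⟨rfl, rfl⟩ := Prod.mk.inj h
      exact ⟨valid_triv _, fun q hq => (valid_low hr).2 ⟨hq.1.1, hq.2⟩⟩
  N2 p A hpA := by
    rcases hpA with ⟨h1, h2, h3⟩ | ⟨j, n, hn, h⟩
    · intro q hq hqp
      obtain ⟨hq1, hq2⟩ := (valid_low hr).1 hq
      obtain ⟨e, he, s, hs1, hs2, hs3⟩ := hr.N2 p A h1 q hq1 hqp
      refine ⟨e, he, restrB a s, (valid_low hr).2 ⟨hs1.restrB hr a, below_restrB a s⟩,
        hs2.to_restrB hq2, hs3.to_restrB (h3 e he)⟩
    · obtain ⟨rfl, rfl⟩ := Prod.mk.inj h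
      intro q hq hqp
      obtain ⟨hq1, hq2⟩ := (valid_low hr).1 hq
      obtain ⟨q', s, h4, h5, h6, h7, h8⟩ := hU j n hn q hq1 hq2
      exact ⟨q', ⟨⟨h4, q', s, h8, h7, Stronger.refl _⟩, h5⟩, q', (valid_low hr).2 ⟨h4, h5⟩, h6,
        Stronger.refl _⟩

end Pool.Agent.W866.TC
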