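import Pool.Agent.W866.TC.Frc

/-!
# Translates of a Cantor set: the sentence `Star` is forced
-/

set_option autoImplicit false
set_option linter.unusedSectionVars false

namespace Pool.Agent.W866.TC

open Classical Pool.Agent.Helper669.Forcing

section Gen

variable {W I : Type} [LinearOrder W]

/-- `x` is a name of an element of `X` which is described by `(r', p', ν)` -/
structure Wit (X : (ℕ → Set (TP W I)) → Set (TP W I)) (ρ : RD W I) (p : Cond W I)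
    (U : ℕ → Name W I) (s1 : ℕ × ℕ) (r' : RD W I) (p' : Cond W I) (ν : Name W I)
    (x : ℕ → Set (TP W I)) : Prop where
  hr : IsR r'
  hle : RLe r' ρ
  hp : Valid r' p'
  hpp : Stronger p' p
  hν : IsName r' ν
  hs : (p', s1) ∈ ν
  hN : ∀ q n, (q, n) ∈ ν → ∀ j, (q, hitU ν (U j)) ∈ r'.N
  hX : ∀ t : TP W I, RLe t.1.1 r' → Stronger t.1.2 p' → t ∈ meets (X x)
  hx : ∀ q n, (q, n) ∈ ν → ∀ t : TP W I, RLe t.1.1 r' → Stronger t.1.2 q → t ∈ SegN n x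

theorem down_NDenseN {P : Type} [Preorder P] (D : ℕ → ℕ × ℕ → Set P) : Down (NDenseN D) :=
  down_fall fun _ => down_fall fun _ => down_fall fun _ => down_fex _

theorem down_KDenseN {P : Type} [Preorder P] (D : ℕ → ℕ × ℕ → Set P) : Down (KDenseN D) :=
  down_fall fun _ => down_fall fun _ => down_fall fun _ => down_fex _

theorem down_InAllN {P : Type} [Preorder P] (D : ℕ → ℕ × ℕ → Set P) (x : ℕ → Set P) :
    Down (InAllN D x) := down_fall fun _ => down_fex _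

theorem down_SumInAllN {P : Type} [Preorder P] (D : ℕ → ℕ × ℕ → Set P) (x t : ℕ → Set P) :
    Down (SumInAllN D x t) := down_fall fun _ => down_fex _

theorem down_EvN {P : Type} [Preorder P] (X : (ℕ → Set P) → Set P) : Down (EvN X) :=
  down_fall fun _ => down_fimp _ _

/-- existence of a described element of `X` -/
theorem exists_wit (hC : S_CTBL W I) (hD : S_DEC W I)
    {X : (ℕ → Set (TP W I)) → Set (TP W I)} {ρ : RD W I} {p : Cond W I} (hρ : IsR ρ)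
    (hp : Valid ρ p) (hX : mk hρ hp ∈ EvN X) {U : ℕ → Name W I} {s1 : ℕ × ℕ} (hs1 : IsNode s1)
    (hUV : ∀ j q s, (q, s) ∈ U j → Valid ρ q ∧ IsNode s)
    (hUN : ∀ j n, IsNode n → ∃ A, (triv, A) ∈ ρ.N ∧ ∀ e ∈ A, ∃ q1 m, (q1, m) ∈ U j ∧ NExt n m ∧
      Stronger e q1) :
    ∃ r' p' ν x, Wit X ρ p U s1 r' p' ν x := by
  -- the name of the sequence of dense sets
  let DN : ℕ → ℕ × ℕ → Set (TP W I) := fun j m => {t | ∃ q, (q, m) ∈ U j ∧ Stronger t.1.2 q}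
  have hDN : mk hρ hp ∈ NDenseN DN := by
    intro j n hn
    rw [mem_fex]
    intro t ht
    obtain ⟨A, hA, hA'⟩ := hUN j n hn
    obtain ⟨e, he, s, hs, hst, hse⟩ := t.2.1.N2 _ _ (ht.1.N hA) t.1.2 t.2.2
      (stronger_triv t.2.2.node)
    obtain ⟨q1, m, hm, hnm, hq1⟩ := hA' e he
    refine ⟨mk t.2.1 hs, ⟨RLe.refl _, hst⟩, m, ⟨hnm, (hUV j q1 m hm).2⟩, ?_⟩
    exact meets_of_mem ⟨q1, hm, hse.trans hq1⟩
  obtain ⟨t3, ht3, h3⟩ := mem_fimp.1 (hX DN) _ le_rfl hDN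
  obtain ⟨t4, ht4, x, hx1, hx2, hx3⟩ := mem_fex.1 (h3 s1 hs1) t3 le_rfl
  -- decisions
  let Φ : ℕ → RD W I → Cond W I → Prop := fun i r q =>
    ∀ h : IsR r ∧ Valid r q,
      (∃ k < B i, mk h.1 h.2 ∈ SegN (i, k) x) ∧
      ((∀ t : TP W I, t ≤ mk h.1 h.2 → ¬ Stronger t.1.2 t4.1.2) ∨
        ∃ m, (∃ q1, (q1, m) ∈ U i ∧ Stronger q q1) ∧ mk h.1 h.2 ∈ SegN m x)
  obtain ⟨r5, hr5, hle5, h5⟩ := hD t4.1.1 Φ t4.2.1 (by
    intro n r₁ p₁ r₂ p₂ hr₁ hr₂ hp₁ hp₂ hrr hpp hΦ h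
    obtain ⟨⟨k, hk, h1⟩, h2⟩ := hΦ ⟨hr₁, hp₁⟩
    have hle : mk h.1 h.2 ≤ mk hr₁ hp₁ := ⟨hrr, hpp⟩
    refine ⟨⟨k, hk, down_SegN _ _ _ h1 _ hle⟩, ?_⟩
    rcases h2 with h2 | ⟨m, ⟨q1, hq1, hq2⟩, h3⟩
    · exact Or.inl fun t ht => h2 t (ht.trans hle)
    · exact Or.inr ⟨m, ⟨q1, hq1, hpp.trans hq2⟩, down_SegN _ _ _ h3 _ hle⟩) (by
    intro n r₁ p₁ hr₁ hrr hp₁
    obtain ⟨u, hu, k, hk, hseg⟩ := exists_segN x (mk hr₁ hp₁) n
    by_cases h1 : ∃ t : TP W I, t ≤ u ∧ Stronger t.1.2 t4.1.2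
    · obtain ⟨t, ht, htp⟩ := h1
      have htt4 : t ≤ t4 := ⟨(ht.trans hu).1.trans hrr, htp⟩
      obtain ⟨t', ht', m, _, hm1, hm2⟩ :=
        mem_fex.1 (down_InAllN _ _ _ hx3 _ htt4 n) t le_rfl
      obtain ⟨t'', ht'', v, ⟨q1, hq1, hq2⟩, hv⟩ := hm1 t' le_rfl
      refine ⟨t''.1.1, t''.1.2, t''.2.1, ?_, t''.2.2, ?_, ?_⟩
      · exact (ht''.trans (ht'.trans (ht.trans hu))).1
      · exact (ht''.trans (ht'.trans (ht.trans hu))).2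
      · intro h
        refine ⟨⟨k, hk, down_SegN _ _ _ hseg _ (ht''.trans (ht'.trans ht))⟩, Or.inr ⟨m, ⟨q1, hq1,
          hv.2.trans hq2⟩, down_SegN _ _ _ hm2 _ ht''⟩⟩
    · push Not at h1
      refine ⟨u.1.1, u.1.2, u.2.1, hu.1, u.2.2, hu.2, ?_⟩
      intro h
      exact ⟨⟨k, hk, hseg⟩, Or.inl h1⟩)
  -- the name
  have hp5 : Valid r5 t4.1.2 := t4.2.2.mono hle5
  let ν : Name W I := {y | IsNode y.2 ∧ ∃ h : IsR r5 ∧ Valid r5 y.1, Stronger y.1 t4.1.2 ∧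
    mk h.1 h.2 ∈ SegN y.2 x}
  let N5 : Set (Cond W I × Set (Cond W I)) :=
    {y | (∃ n, (y.1, n) ∈ ν) ∧ ((∃ l, y.2 = decide ν l) ∨ ∃ j, y.2 = hitU ν (U j))}
  have hN5c : N5.Countable := by
    have : N5 ⊆ (fun z : Cond W I × ℕ => ((z.1, decide ν z.2) : Cond W I × Set (Cond W I))) ''
        ({q | Valid r5 q} ×ˢ Set.univ) ∪
        (fun z : Cond W I × ℕ => ((z.1, hitU ν (U z.2)) : Cond W I × Set (Cond W I))) ''
        ({q | Valid r5 q} ×ˢ Set.univ) := by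
      rintro ⟨q, A⟩ ⟨⟨n, _, h, _⟩, ⟨l, h1⟩ | ⟨j, h1⟩⟩
      · exact Or.inl ⟨(q, l), ⟨h.2, trivial⟩, Prod.ext rfl h1.symm⟩
      · exact Or.inr ⟨(q, j), ⟨h.2, trivial⟩, Prod.ext rfl h1.symm⟩
    exact ((((hC r5 hr5).prod Set.countable_univ).image _).union
      (((hC r5 hr5).prod Set.countable_univ).image _)).mono this
  have hR : IsR (⟨r5.w, r5.J, r5.nm, r5.N ∪ N5⟩ : RD W I) := by
    refine isR_addN hr5 hN5c ?_ ?_
    · rintro q A ⟨⟨n, _, h, _⟩, h1⟩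
      refine ⟨h.2, fun q' hq' => ?_⟩
      simp only at h1
      rcases h1 with ⟨l, rfl⟩ | ⟨j, rfl⟩
      · obtain ⟨n', ⟨_, h', _⟩, _⟩ := hq'
        exact h'.2
      · obtain ⟨n', ⟨_, h', _⟩, _⟩ := hq'
        exact h'.2
    · rintro q A ⟨⟨n, _, h, hq4, _⟩, h1⟩
      simp only at h1 hq4
      intro q1 hq1 hq1q
      rcases h1 with ⟨l, rfl⟩ | ⟨j, rfl⟩
      · obtain ⟨q2, hq2, hq21, h2⟩ := h5 l q1 hq1
        obtain ⟨⟨k, hk, h3⟩, _⟩ := h2 ⟨hr5, hq2⟩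
        refine ⟨q2, ⟨(l, k), ⟨hk, ⟨hr5, hq2⟩, hq21.trans (hq1q.trans hq4), h3⟩, le_rfl⟩, q2, hq2,
          hq21, Stronger.refl _⟩
      · obtain ⟨q2, hq2, hq21, h2⟩ := h5 j q1 hq1
        obtain ⟨_, h3⟩ := h2 ⟨hr5, hq2⟩
        have hq24 : Stronger q2 t4.1.2 := hq21.trans (hq1q.trans hq4)
        rcases h3 with h3 | ⟨m, ⟨q3, hq3, hq23⟩, h4⟩
        · exact absurd hq24 (h3 _ le_rfl)
        · refine ⟨q2, ⟨m, ⟨(hUV j q3 m hq3).2, ⟨hr5, hq2⟩, hq24, h4⟩, q3, m, hq3, hq23,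
            NExt.refl _⟩, q2, hq2, hq21, Stronger.refl _⟩
  have hv : ∀ q, Valid r5 q → Valid (⟨r5.w, r5.J, r5.nm, r5.N ∪ N5⟩ : RD W I) q := fun q hq =>
    Valid.mono' (r := r5) (r' := ⟨r5.w, r5.J, r5.nm, r5.N ∪ N5⟩) subset_rfl subset_rfl
      (fun _ _ => rfl) hq
  have hv' : ∀ q, Valid (⟨r5.w, r5.J, r5.nm, r5.N ∪ N5⟩ : RD W I) q → Valid r5 q := fun q hq =>
    Valid.mono' (r := ⟨r5.w, r5.J, r5.nm, r5.N ∪ N5⟩) (r' := r5) subset_rfl subset_rfl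
      (fun _ _ => rfl) hq
  have hrle : RLe (⟨r5.w, r5.J, r5.nm, r5.N ∪ N5⟩ : RD W I) r5 :=
    ⟨subset_rfl, subset_rfl, fun _ _ => rfl, Set.subset_union_left⟩
  have h4ρ : t4 ≤ mk hρ hp := ht4.trans ht3
  refine ⟨⟨r5.w, r5.J, r5.nm, r5.N ∪ N5⟩, t4.1.2, ν, x, hR, hrle.trans (hle5.trans h4ρ.1),
    hv _ hp5, h4ρ.2, ?_, ?_, ?_, ?_, ?_⟩
  · refine ⟨fun q n hq => hv q hq.2.choose.2, fun q n hq => hq.1, ?_, ?_⟩
    · rintro q n q' n' ⟨hn, h, _, h1⟩ ⟨hn', h', _, h1'⟩ s hs hsq hsq' hle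
      have h2 : mk hr5 (hv' s hs) ≤ mk h.1 h.2 := ⟨RLe.refl _, hsq⟩
      have h2' : mk hr5 (hv' s hs) ≤ mk h'.1 h'.2 := ⟨RLe.refl _, hsq'⟩
      exact segN_coh hn hn' (down_SegN _ _ _ h1 _ h2) (down_SegN _ _ _ h1' _ h2') hle
    · intro q n hq l
      exact Or.inr ⟨⟨n, hq⟩, Or.inl ⟨l, rfl⟩⟩
  · refine ⟨hs1, ⟨hr5, hp5⟩, Stronger.refl _, down_SegN _ _ _ hx2 _ ?_⟩
    exact ⟨hle5, Stronger.refl _⟩
  · intro q n hq j
    exact Or.inr ⟨⟨n, hq⟩, Or.inr ⟨j, rfl⟩⟩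
  · intro t ht1 ht2
    exact down_meets _ _ hx1 _ ⟨ht1.trans (hrle.trans hle5), ht2⟩
  · rintro q n ⟨_, h, _, h1⟩ t ht1 ht2
    exact down_SegN _ _ _ h1 _ ⟨ht1.trans hrle, ht2⟩

/-- the last step: for a closed stage `a` -/
theorem last_step (hC : S_CTBL W I) (hD : S_DEC W I) (hX : S_EXT) (hH : S_HIT2)
    (hE : S_EXTEND W I) (hI : ¬ (Set.univ : Set I).Countable)
    {X : (ℕ → Set (TP W I)) → Set (TP W I)} {t0 : TP W I} (h0 : t0 ∈ EvN X) {a : W}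
    (ha0 : ∀ c ∈ t0.1.1.w, c < a)
    (hclos : ∀ ρ p (U : ℕ → Name W I) s1, IsR ρ → (∀ c ∈ ρ.w, c < a) → Valid ρ p →
      (∀ j q n, (q, n) ∈ U j → Valid ρ q) → (∃ r' p' ν x, Wit X ρ p U s1 r' p' ν x) →
      ∃ r' p' ν x, Wit X ρ p U s1 r' p' ν x ∧ ∀ c ∈ r'.w, c < a)
    {D : ℕ → ℕ × ℕ → Set (TP W I)} {t1 : TP W I} (ht1 : t1 ≤ t0) (ha1 : a ∈ t1.1.1.w)
    (hKD : t1 ∈ KDenseN D) :
    ∃ t2 ≤ t1, t2 ∈ fex fun x : ℕ → Set (TP W I) =>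
      fand (meets (X x)) (SumInAllN D x (tN a)) := by
  -- decide the sets `D j`
  let Φ : ℕ → RD W I → Cond W I → Prop := fun i r q =>
    ∀ h : IsR r ∧ Valid r q, KNode (Nat.unpair i.unpair.2) →
      ((∀ t : TP W I, t ≤ mk h.1 h.2 → ¬ Stronger t.1.2 t1.1.2) ∨
        ∃ d, NExt (Nat.unpair i.unpair.2) d ∧ KNode d ∧ mk h.1 h.2 ∈ meets (D i.unpair.1 d))
  obtain ⟨r1, hr1, hle1, h1⟩ := hD t1.1.1 Φ t1.2.1 (by
    intro n r₁ p₁ r₂ p₂ hr₁ hr₂ hp₁ hp₂ hrr hpp hΦ h hn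
    have hle : mk h.1 h.2 ≤ mk hr₁ hp₁ := ⟨hrr, hpp⟩
    rcases hΦ ⟨hr₁, hp₁⟩ hn with h2 | ⟨d, hd1, hd2, hd3⟩
    · exact Or.inl fun t ht => h2 t (ht.trans hle)
    · exact Or.inr ⟨d, hd1, hd2, down_meets _ _ hd3 _ hle⟩) (by
    intro n r₁ p₁ hr₁ hrr hp₁
    by_cases h2 : ∃ t : TP W I, t ≤ mk hr₁ hp₁ ∧ Stronger t.1.2 t1.1.2
    · obtain ⟨t, ht, htp⟩ := h2
      by_cases hn : KNode (Nat.unpair n.unpair.2)
      · have htt1 : t ≤ t1 := ⟨ht.1.trans hrr, htp⟩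
        obtain ⟨t', ht', d, ⟨hd1, hd2⟩, hd3⟩ :=
          mem_fex.1 (down_KDenseN _ _ hKD _ htt1 n.unpair.1 (Nat.unpair n.unpair.2) hn) t le_rfl
        exact ⟨t'.1.1, t'.1.2, t'.2.1, (ht'.trans ht).1, t'.2.2, (ht'.trans ht).2,
          fun h _ => Or.inr ⟨d, hd1, hd2, hd3⟩⟩
      · exact ⟨t.1.1, t.1.2, t.2.1, ht.1, t.2.2, ht.2, fun h hn' => absurd hn' hn⟩
    · push Not at h2
      exact ⟨r₁, p₁, hr₁, RLe.refl _, hp₁, Stronger.refl _, fun h _ => Or.inl h2⟩)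
  have hp1 : Valid r1 t1.1.2 := t1.2.2.mono hle1
  let E : ℕ → ℕ × ℕ → Set (Cond W I) := fun j d =>
    {e | ∃ h : IsR r1 ∧ Valid r1 e, mk h.1 h.2 ∈ meets (D j d)}
  have hDD : ∀ j n, KNode n → Predense r1 t1.1.2 {e | ∃ d, NExt n d ∧ KNode d ∧ e ∈ E j d} := by
    intro j n hn q hq hqp
    obtain ⟨q', hq', hqq, hΦ⟩ := h1 (Nat.pair j (Nat.pair n.1 n.2)) q hq
    have e1 : (Nat.unpair (Nat.pair j (Nat.pair n.1 n.2))).1 = j := by simp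
    have e2 : Nat.unpair (Nat.unpair (Nat.pair j (Nat.pair n.1 n.2))).2 = n := by simp
    have h2 := hΦ ⟨hr1, hq'⟩
    rw [e1, e2] at h2
    rcases h2 hn with h3 | ⟨d, hd1, hd2, hd3⟩
    · exact absurd (hqq.trans hqp) (h3 _ le_rfl)
    · exact ⟨q', ⟨d, hd1, hd2, ⟨hr1, hq'⟩, hd3⟩, q', hq', hqq, Stronger.refl _⟩
  obtain ⟨p2, s1, U, hp2, hp21, hs1, hUV, hUD, hstep⟩ := one_step hC hX hH hE hr1 (hle1.w ha1)
    hp1 E hDD
  -- the part below `a`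
  have hlow : IsR (low r1 a U) := isR_low hr1 hUD
  have hlowp : Valid (low r1 a U) (restrB a p2) :=
    (valid_low hr1).2 ⟨hp2.restrB hr1 a, below_restrB a p2⟩
  have hr10 : RLe r1 t0.1.1 := hle1.trans ht1.1
  have hb0 : ∀ q, Valid t0.1.1 q → Below a q := fun q hq =>
    ⟨fun c hc => ha0 c (hq.sub c hc), fun ι hι => ha0 _ (t0.2.1.Jw ι (hq.J ι hι))⟩
  have hρ0 : mk hlow hlowp ≤ t0 := by
    refine ⟨⟨fun c hc => ⟨hr10.w hc, ha0 c hc⟩,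
      fun ι hι => ⟨hr10.J hι, ha0 _ (t0.2.1.Jw ι hι)⟩, fun ι hι => ?_, ?_⟩, ?_⟩
    · show (low r1 a U).nm ι = t0.1.1.nm ι
      rw [low_nm (ha0 _ (t0.2.1.Jw ι hι))]
      exact hr10.nm ι hι
    · rintro ⟨p, A⟩ hA
      exact Or.inl ⟨hr10.N hA, hb0 p (t0.2.1.N1 p A hA).1,
        fun q hq => hb0 q ((t0.2.1.N1 p A hA).2 q hq)⟩
    · show Stronger (restrB a p2) t0.1.2
      exact (hp21.trans ht1.2).to_restrB (hb0 _ t0.2.2)
  have hwit := exists_wit hC hD hlow hlowp (down_EvN X _ h0 _ hρ0) (U := U) hs1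
    (fun j q s hq => ⟨(valid_low hr1).2 ⟨(hUV j q s hq).1, (hUV j q s hq).2.1⟩,
      (hUV j q s hq).2.2⟩)
    (fun j n hn => ⟨_, Or.inr ⟨j, n, hn, rfl⟩, fun e he => he.1.2⟩)
  obtain ⟨r', p', ν, x, hw, hwa⟩ := hclos _ _ U s1 hlow (fun c hc => hc.2) hlowp
    (fun j q n hq => (valid_low hr1).2 ⟨(hUV j q n hq).1, (hUV j q n hq).2.1⟩) hwit
  -- a new index
  obtain ⟨i, hi⟩ : ∃ i : I, (a, i) ∉ r1.J := by
    by_contra hcon
    push Not at hcon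
    apply hI
    have : (Set.univ : Set I) = (fun i => (a, i)) ⁻¹' r1.J := by
      ext i
      exact ⟨fun _ => hcon i, fun _ => trivial⟩
    rw [this]
    exact hr1.cJ.preimage (fun i j h => (Prod.mk.inj h).2)
  obtain ⟨r2, p3, hr2, hr21, hr2', hp3, hp31, hp3', hpd⟩ := hstep r' p' ν (a, i) hw.hr hw.hle hwa
    hw.hp hw.hpp hw.hν hw.hs hw.hN rfl hi
  refine ⟨mk hr2 hp3, ⟨hr21.trans hle1, hp31⟩, ?_⟩
  refine mem_fex_of_mem x (down_fand (down_meets _) (down_SumInAllN _ _ _)) ⟨?_, ?_⟩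
  · exact hw.hX _ hr2' hp3'
  · intro j
    rw [mem_fex]
    intro t ht
    obtain ⟨g, ⟨hg1, _, d, hd1, ⟨e, ⟨he1, he2⟩, hge⟩, q, n, hq, hgq, hn, hsum⟩, s, hs, hst, hsg⟩ :=
      t.2.1.N2 _ _ (ht.1.N (hpd j)) t.1.2 t.2.2 ht.2
    refine ⟨mk t.2.1 hs, ⟨RLe.refl _, hst⟩, d, hd1, ?_, ?_⟩
    · exact down_meets _ _ he2 _ ⟨ht.1.trans hr21, hsg.trans hge⟩
    · refine mem_fex_of_mem ((g.u a).1, cut (g.u a).1 n) (down_fex _) ?_
      refine mem_fex_of_mem (g.u a) (down_fand (down_fground _)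
        (down_fand (down_SegN _ _) (down_SegN _ _))) ⟨hsum, ?_, ?_⟩
      · exact segN_cut hn (hw.hx q n hq _ (ht.1.trans hr2') (hsg.trans hgq))
      · exact seg_tN' a hsg

end Gen

section Final

open Cardinal

/-- The sentence `Star` is forced. -/
theorem star_forced (hC : ∀ (W I : Type) [LinearOrder W], S_CTBL W I)
    (hD : ∀ (W I : Type) [LinearOrder W], S_DEC W I) (hX : S_EXT) (hH : S_HIT2)
    (hE : ∀ (W I : Type) [LinearOrder W], S_EXTEND W I) (hCount : S_COUNT) (hRefl : S_REFL)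
    (t : TP Wc (Set ℕ)) : t ∈ StarHolds (TP Wc (Set ℕ)) := by
  intro X
  rw [mem_fimp]
  rintro t00 _ h00
  refine ⟨t00, le_rfl, ?_⟩
  rw [mem_fex]
  intro t0 ht0
  have h0 := down_EvN X _ h00 _ ht0
  have hI : ¬ (Set.univ : Set (Set ℕ)).Countable := by
    intro h
    rw [← Cardinal.le_aleph0_iff_set_countable, Cardinal.mk_univ, Cardinal.mk_set,
      Cardinal.mk_nat] at h
    exact absurd h (not_le.2 (Cardinal.cantor _))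
  have hne : Nonempty Wc := by
    rw [← Cardinal.mk_ne_zero_iff, Cardinal.mk_ord_toType]
    exact (lt_of_le_of_lt (zero_le) (Order.lt_succ 𝔠)).ne'
  -- the closure function
  let f : Obj → Set Wc := fun o =>
    (if h : ∃ r' p' ν x, Wit X o.1 o.2.1 o.2.2.1 o.2.2.2 r' p' ν x then h.choose.w else ∅) ∪
      t0.1.1.w
  have hf : ∀ o, (f o).Countable := by
    intro o
    refine Set.Countable.union ?_ t0.2.1.cw
    split_ifs with h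
    · obtain ⟨p', ν, x, hw⟩ := h.choose_spec
      exact hw.hr.cw
    · exact Set.countable_empty
  obtain ⟨a, _, _, ha⟩ := hRefl hCount f hf (Classical.arbitrary Wc)
  have ha0 : ∀ c ∈ t0.1.1.w, c < a := by
    intro c hc
    refine ha (⟨∅, ∅, fun _ => ∅, ∅⟩, triv, fun _ => ∅, (0, 0)) ?_ c (Or.inr hc)
    exact ⟨isR_empty, fun c hc => absurd hc (Set.notMem_empty c), valid_triv _,
      fun j q n hq => absurd hq (Set.notMem_empty _)⟩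
  have hclos : ∀ ρ p (U : ℕ → Name Wc (Set ℕ)) s1, IsR ρ → (∀ c ∈ ρ.w, c < a) → Valid ρ p →
      (∀ j q n, (q, n) ∈ U j → Valid ρ q) → (∃ r' p' ν x, Wit X ρ p U s1 r' p' ν x) →
      ∃ r' p' ν x, Wit X ρ p U s1 r' p' ν x ∧ ∀ c ∈ r'.w, c < a := by
    intro ρ p U s1 h1 h2 h3 h4 h5
    obtain ⟨p', ν, x, hw⟩ := h5.choose_spec
    refine ⟨h5.choose, p', ν, x, hw, fun c hc => ha (ρ, p, U, s1) ⟨h1, h2, h3, h4⟩ c ?_⟩
    refine Or.inl ?_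
    simp only [dif_pos h5]
    exact hc
  refine ⟨mk (isR_addw t0.2.1 a) (t0.2.2.mono (rle_addw t0.1.1 a)),
    ⟨rle_addw _ _, Stronger.refl _⟩, tN a, ?_⟩
  intro D
  rw [mem_fimp]
  intro t1 ht1 hKD
  exact last_step (hC _ _) (hD _ _) hX hH (hE _ _) hI h0 ha0 hclos
    (ht1.trans ⟨rle_addw _ _, Stronger.refl _⟩) (ht1.1.w (Set.mem_insert _ _)) hKD

end Final

end Pool.Agent.W866.TC
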