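import Pool.Agent.W866.TC.Fam

/-!
# Translates of a Cantor set: the one-step extension
-/

set_option autoImplicit false
set_option linter.unusedSectionVars false

namespace Pool.Agent.W866.TC

open Classical

variable {W I : Type} [LinearOrder W]

/-- the members of `ν` which know that the real named by `ν` is in the open set named by `U` -/
def hitU (ν U : Name W I) : Set (Cond W I) :=
  {q | ∃ n, (q, n) ∈ ν ∧ ∃ q1 s, (q1, s) ∈ U ∧ Stronger q q1 ∧ NExt s n}

/-- amalgamation with a new index `κ` with name `ν` -/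
def amal (r1 r' : RD W I) (a : W) (κ : W × I) (ν : Name W I)
    (N' : Set (Cond W I × Set (Cond W I))) : RD W I where
  w := r1.w ∪ r'.w
  J := insert κ (r1.J ∪ r'.J)
  nm := fun ι => if ι = κ then ν else if ι.1 < a then r'.nm ι else r1.nm ι
  N := r1.N ∪ r'.N ∪ N'

/-- the hypotheses for amalgamation -/
structure Hyp (r1 r' : RD W I) (a : W) (κ : W × I) (ν : Name W I) (U : ℕ → Name W I) :
    Prop where
  hr1 : IsR r1
  ha : a ∈ r1.w
  hr' : IsR r'
  hle : RLe r' (low r1 a U)
  hw : ∀ c ∈ r'.w, c < a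
  hν : IsName r' ν
  hκ : κ.1 = a
  hκJ : κ ∉ r1.J

/-- adding an index -/
noncomputable def addF (κ : W × I) (p : Cond W I) : Cond W I := ⟨p.u, insert κ p.F⟩

theorem addF_stronger (κ : W × I) (p : Cond W I) : Stronger (addF κ p) p :=
  ⟨fun _ => NExt.refl _, Finset.subset_insert _ _⟩

namespace Hyp

variable {r1 r' : RD W I} {a : W} {κ : W × I} {ν : Name W I} {U : ℕ → Name W I}
  {N' : Set (Cond W I × Set (Cond W I))}

theorem J' (h : Hyp r1 r' a κ ν U) {ι : W × I} (hι : ι ∈ r'.J) : ι.1 < a :=
  h.hw _ (h.hr'.Jw ι hι)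

theorem κJ' (h : Hyp r1 r' a κ ν U) : κ ∉ r'.J := fun hκ => by
  have := h.J' hκ
  rw [h.hκ] at this
  exact lt_irrefl _ this

theorem nm1 (h : Hyp r1 r' a κ ν U) {ι : W × I} (hι : ι ∈ r1.J) :
    (amal r1 r' a κ ν N').nm ι = r1.nm ι := by
  have h1 : ι ≠ κ := fun h2 => h.hκJ (h2 ▸ hι)
  simp only [amal, if_neg h1]
  split_ifs with h2
  · rw [h.hle.nm ι ⟨hι, h2⟩, low_nm h2]
  · rfl

theorem nm2 (h : Hyp r1 r' a κ ν U) {ι : W × I} (hι : ι ∈ r'.J) :
    (amal r1 r' a κ ν N').nm ι = r'.nm ι := by
  have h1 : ι ≠ κ := fun h2 => h.κJ' (h2 ▸ hι)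
  simp only [amal, if_neg h1, if_pos (h.J' hι)]

theorem nmκ : (amal r1 r' a κ ν N').nm κ = ν := by
  simp only [amal, if_true]

theorem valid1 (h : Hyp r1 r' a κ ν U) {p : Cond W I} (hp : Valid r1 p) :
    Valid (amal r1 r' a κ ν N') p :=
  hp.mono' Set.subset_union_left (Set.subset_union_left.trans (Set.subset_insert _ _))
    fun _ hι => h.nm1 hι

theorem valid2 (h : Hyp r1 r' a κ ν U) {p : Cond W I} (hp : Valid r' p) :
    Valid (amal r1 r' a κ ν N') p :=
  hp.mono' Set.subset_union_right (Set.subset_union_right.trans (Set.subset_insert _ _))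
    fun _ hι => h.nm2 hι

theorem below' (h : Hyp r1 r' a κ ν U) {p : Cond W I} (hp : Valid r' p) : Below a p :=
  ⟨fun c hc => h.hw c (hp.sub c hc), fun ι hι => h.J' (hp.J ι hι)⟩

theorem low_of (h : Hyp r1 r' a κ ν U) {p : Cond W I} (hp : Valid (amal r1 r' a κ ν N') p)
    (hpa : Below a p) : Valid r' p where
  fin := hp.fin
  sub c hc := by
    rcases hp.sub c hc with h1 | h1
    · exact h.hle.w ⟨h1, hpa.1 c hc⟩
    · exact h1
  node := hp.node
  room := hp.room
  J ι hι := by
    have h0 := hpa.2 ι hι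
    rcases hp.J ι hι with h1 | h1 | h1
    · rw [h1, h.hκ] at h0
      exact absurd h0 (lt_irrefl _)
    · exact h.hle.J ⟨h1, h0⟩
    · exact h1
  wit ι hι := by
    have h0 := hpa.2 ι hι
    have h2 : ι ∈ r'.J := by
      rcases hp.J ι hι with h1 | h1 | h1
      · rw [h1, h.hκ] at h0
        exact absurd h0 (lt_irrefl _)
      · exact h.hle.J ⟨h1, h0⟩
      · exact h1
    have h3 := hp.wit ι hι
    rw [h.nm2 h2] at h3
    exact h3

theorem restr1 (h : Hyp r1 r' a κ ν U) {p : Cond W I} (hp : Valid (amal r1 r' a κ ν N') p) :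
    Valid r1 (restrR r1 p) := hp.restrR' h.hr1 fun _ hι => h.nm1 hι

theorem restrB_valid (h : Hyp r1 r' a κ ν U) {p : Cond W I}
    (hp : Valid (amal r1 r' a κ ν N') p) (hJ : ∀ ι ∈ p.F, ι.1 < a →
      ∀ q n, (q, n) ∈ (amal r1 r' a κ ν N').nm ι → Below a q) :
    Valid (amal r1 r' a κ ν N') (restrB a p) where
  fin := hp.fin.subset fun c hc => by
    simp only [TC.restrB, Set.mem_ofPred_eq] at hc ⊢
    split_ifs at hc with h1
    · exact hc
    · exact absurd rfl hc
  sub c hc := by
    simp only [TC.restrB] at hc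
    split_ifs at hc with h1
    · exact hp.sub c hc
    · exact absurd rfl hc
  node c := by
    simp only [TC.restrB]
    split_ifs
    · exact hp.node c
    · exact isNode_zero
  room c := by
    simp only [TC.restrB]
    split_ifs with h1
    · refine lt_of_le_of_lt ?_ (hp.room c)
      have := cnt_mono (p := p) (q := TC.restrB a p) (Finset.filter_subset _ _) c
      simp only [TC.restrB] at this
      omega
    · have : cnt (TC.restrB a p) c = 0 := cnt_eq_zero (by
        rintro ι hι rfl
        simp only [TC.restrB, Finset.mem_filter] at hι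
        exact h1 hι.2)
      simp only [TC.restrB] at this
      rw [this]
      simp [b]
  J ι hι := hp.J ι (Finset.filter_subset _ _ hι)
  wit ι hι := by
    simp only [TC.restrB, Finset.mem_filter] at hι
    obtain ⟨q, n, h1, h2, h3, h4⟩ := hp.wit ι hι.1
    refine ⟨q, n, h1, h2.to_restrB (hJ ι hι.1 hι.2 q n h1), ?_⟩
    simp only [TC.restrB, if_pos hι.2]
    exact ⟨h3, h4⟩

/-- the restriction to the stages before `a` is a condition of `r'` -/
theorem restr2 (h : Hyp r1 r' a κ ν U) {p : Cond W I} (hp : Valid (amal r1 r' a κ ν N') p) :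
    Valid r' (restrB a p) := by
  refine h.low_of (h.restrB_valid hp fun ι hι hιa q n hq => ?_) (below_restrB a p)
  have h2 : ι ∈ r'.J := by
    rcases hp.J ι hι with h1 | h1 | h1
    · rw [h1, h.hκ] at hιa
      exact absurd hιa (lt_irrefl _)
    · exact h.hle.J ⟨h1, hιa⟩
    · exact h1
  rw [h.nm2 h2] at hq
  exact h.below' ((h.hr'.name ι h2).valid q n hq)

/-- glueing is below the condition `t`, up to the index `κ` -/
theorem glue_le (h : Hyp r1 r' a κ ν U) {t q' q2 : Cond W I}
    (ht : Valid (amal r1 r' a κ ν N') t) (h1 : Stronger q' (restrB a t))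
    (h2 : Stronger q2 (restrR r1 t)) :
    (∀ c, NExt (t.u c) ((glue a q' q2).u c)) ∧ ∀ ι ∈ t.F, ι ≠ κ → ι ∈ (glue a q' q2).F := by
  constructor
  · intro c
    simp only [glue]
    split_ifs with hc
    · have := h1.1 c
      simp only [restrB, if_pos hc] at this
      exact this
    · have := h2.1 c
      simp only [restrR] at this
      split_ifs at this with h3
      · exact this
      · have h4 : t.u c = (0, 0) := by
          by_contra h4
          rcases ht.sub c h4 with h5 | h5
          · exact h3 h5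
          · exact hc (h.hw c h5)
        rw [h4]
        exact this
  · intro ι hι hne
    simp only [glue, Finset.mem_union, Finset.mem_filter]
    rcases lt_or_ge ι.1 a with h3 | h3
    · left
      apply h1.2
      simp only [restrB, Finset.mem_filter]
      exact ⟨hι, h3⟩
    · right
      refine ⟨h2.2 ?_, h3⟩
      simp only [restrR, Finset.mem_filter]
      refine ⟨hι, ?_⟩
      rcases ht.J ι hι with h5 | h5 | h5
      · exact absurd h5 hne
      · exact h5
      · exact absurd (h.J' h5) (not_lt.2 h3)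

/-- validity after adding the index `κ` -/
theorem valid_addF (h : Hyp r1 r' a κ ν U) {g : Cond W I}
    (hg : Valid (amal r1 r' a κ ν N') g) (hroom : Room2 g a) {e : Cond W I} {n : ℕ × ℕ}
    (he : (e, n) ∈ ν) (hge : Stronger g e) (hl : (g.u a).1 ≤ n.1)
    (hgood : GoodSum (g.u a).1 (cut (g.u a).1 n + (g.u a).2)) :
    Valid (amal r1 r' a κ ν N') (addF κ g) where
  fin := hg.fin
  sub := hg.sub
  node := hg.node
  room c := by
    by_cases hc : c = a
    · subst hc
      have : cnt (addF κ g) c ≤ cnt g c + 1 := cnt_mono_succ κ (by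
        intro ι hι _
        simp only [addF, Finset.mem_insert] at hι
        exact hι.symm)
      have h2 := hroom
      rw [Room2] at h2
      show 3 * (cnt (addF κ g) c + 1) < b (g.u c).1
      omega
    · have : cnt (addF κ g) c ≤ cnt g c := cnt_mono' (by
        intro ι hι hιc
        simp only [addF, Finset.mem_insert] at hι
        rcases hι with rfl | hι
        · exact absurd (hιc.symm.trans h.hκ) hc
        · exact hι)
      have h2 := hg.room c
      show 3 * (cnt (addF κ g) c + 1) < b (g.u c).1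
      omega
  J ι hι := by
    simp only [addF, Finset.mem_insert] at hι
    rcases hι with rfl | hι
    · exact Set.mem_insert _ _
    · exact hg.J ι hι
  wit ι hι := by
    simp only [addF, Finset.mem_insert] at hι
    rcases hι with rfl | hι
    · refine ⟨e, n, by rw [nmκ]; exact he, (addF_stronger ι g).trans hge, ?_⟩
      show (g.u ι.1).1 ≤ n.1 ∧ GoodSum (g.u ι.1).1 (cut (g.u ι.1).1 n + (g.u ι.1).2)
      rw [h.hκ]
      exact ⟨hl, hgood⟩
    · obtain ⟨q, m, h1, h2, h3⟩ := hg.wit ι hι
      exact ⟨q, m, h1, (addF_stronger κ g).trans h2, h3⟩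

/-- glueing and adding the index `κ` -/
theorem valid_all (h : Hyp r1 r' a κ ν U) {q' q2 : Cond W I} {s : ℕ × ℕ}
    (hq' : Valid r' q') (hq2 : Valid r1 q2) (hqq : Stronger q' (restrB a q2)) (hfit : Fit a q2 s)
    {e : Cond W I} {n : ℕ × ℕ} (he : (e, n) ∈ ν) (hqe : Stronger q' e) (hsn : NExt s n) :
    Valid (amal r1 r' a κ ν N') (glue a q' q2) ∧
      Valid (amal r1 r' a κ ν N') (addF κ (glue a q' q2)) := by
  have h1 : Valid (amal r1 r' a κ ν N') (glue a q' q2) :=
    (h.valid2 hq').glue (h.below' hq') (h.valid1 hq2) hqq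
  refine ⟨h1, ?_⟩
  have hu : (glue a q' q2).u a = q2.u a := by simp [glue]
  have hcnt : cnt (glue a q' q2) a ≤ cnt q2 a := cnt_mono' (by
    rintro ι hι hιa
    simp only [glue, Finset.mem_union, Finset.mem_filter] at hι
    rcases hι with h2 | h2
    · have := (h.below' hq').2 ι h2
      rw [hιa] at this
      exact absurd this (lt_irrefl _)
    · exact h2.1)
  obtain ⟨hf1, hf2, hf3⟩ := hfit
  refine h.valid_addF h1 ?_ he ((glue_le_left (h.below' hq') hq2.node).trans hqe) ?_ ?_
  · rw [Room2, hu]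
    rw [Room2] at hf3
    omega
  · rw [hu, ← hf1]
    exact hsn.1
  · rw [hu, ← hf1, hsn.2]
    exact hf2

end Hyp

end Pool.Agent.W866.TC
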