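import Pool.Agent.W866.TC.Step

/-!
# Translates of a Cantor set: the one-step extension, continued
-/

set_option autoImplicit false
set_option linter.unusedSectionVars false

namespace Pool.Agent.W866.TC

open Classical

variable {W I : Type} [LinearOrder W]

namespace Hyp

variable {r1 r' : RD W I} {a : W} {κ : W × I} {ν : Name W I} {U : ℕ → Name W I}
  {N' : Set (Cond W I × Set (Cond W I))}

/-- the common part of the two cases -/
theorem third (h : Hyp r1 r' a κ ν U) (hlow : IsR (low r1 a U)) {t : Cond W I}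
    (ht : Valid (amal r1 r' a κ ν N') t) {Φ : Cond W I → ℕ × ℕ → Prop} {q' q1 : Cond W I}
    {s : ℕ × ℕ} (hq' : Valid r' q') (hq't : Stronger q' (restrB a t))
    (hq1 : (q1, s) ∈ UU r1 a (restrR r1 t) Φ) (hqq : Stronger q' q1)
    (hgood : (t.u a).1 ≤ s.1 → GoodSum (t.u a).1 (cut (t.u a).1 s + (t.u a).2)) :
    ∃ q2, Valid r1 q2 ∧ Stronger q2 (restrR r1 t) ∧ Φ q2 s ∧ Stronger q' (restrB a q2) := by
  have hua : (restrR r1 t).u a = t.u a := by simp [restrR, h.ha]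
  have htt : Stronger (restrB a t) (restrB a (restrR r1 t)) :=
    (Stronger.restrR ht.node).restrB_restrB
  obtain ⟨hv, hb, hn, h1 | ⟨h1, h2⟩ | ⟨q2, h1, h2, h3, h4⟩⟩ := hq1
  · exfalso
    have h2 : Valid (low r1 a U) (restrR (low r1 a U) q') := hq'.restrR hlow h.hle
    obtain ⟨h3, h4⟩ := (valid_low h.hr1).1 h2
    refine h1 _ h3 h4 (hqq.to_restrR ((valid_low h.hr1).2 ⟨hv, hb⟩)) ?_
    refine (hq't.trans htt).to_restrR ((valid_low h.hr1).2 ⟨?_, below_restrB _ _⟩)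
    exact (h.restr1 ht).restrB h.hr1 a
  · exfalso
    rw [hua] at h1 h2
    exact h2 (hgood h1)
  · exact ⟨q2, h1, h2, h3, hqq.trans h4⟩

theorem caseB (h : Hyp r1 r' a κ ν U) (hlow : IsR (low r1 a U)) {t : Cond W I}
    (ht : Valid (amal r1 r' a κ ν N') t) (hκt : κ ∈ t.F)
    (hν2 : ∀ q n, (q, n) ∈ ν → ∀ j, (q, hitU ν (U j)) ∈ r'.N)
    {Φ : Cond W I → ℕ × ℕ → Prop} {j : ℕ} (hj : U j = UU r1 a (restrR r1 t) Φ) :
    ∃ q' q2 s e n, Valid r' q' ∧ Stronger q' (restrB a t) ∧ Valid r1 q2 ∧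
      Stronger q2 (restrR r1 t) ∧ Φ q2 s ∧ Stronger q' (restrB a q2) ∧ (e, n) ∈ ν ∧
      Stronger q' e ∧ NExt s n := by
  obtain ⟨q0, n0, h1, h2, h3, h4⟩ := ht.wit κ hκt
  rw [nmκ] at h1
  rw [h.hκ] at h3 h4
  obtain ⟨e, ⟨n, he, q1, s, hq1, heq, hsn⟩, q', hq', hq't, hqe⟩ := h.hr'.N2 _ _ (hν2 q0 n0 h1 j)
    (restrB a t) (h.restr2 ht) (h2.to_restrB (h.below' (h.hν.valid q0 n0 h1)))
  rw [hj] at hq1
  obtain ⟨q2, h5, h6, h7, h8⟩ := h.third hlow ht hq' hq't hq1 (hqe.trans heq) (by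
    intro hls
    have h9 : cut (t.u a).1 s = cut (t.u a).1 n := (hsn.cut_eq hls).symm
    have hq0 : Stronger q' q0 :=
      hq't.trans (h2.to_restrB (h.below' (h.hν.valid q0 n0 h1)))
    have h10 : cut (t.u a).1 n = cut (t.u a).1 n0 := by
      rcases le_total n.1 n0.1 with h11 | h11
      · exact ((h.hν.coh e n q0 n0 he h1 q' hq' hqe hq0 h11).cut_eq (hls.trans hsn.1)).symm
      · exact (h.hν.coh q0 n0 e n h1 he q' hq' hq0 hqe h11).cut_eq h3
    rw [h9, h10]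
    exact h4)
  exact ⟨q', q2, s, e, n, hq', hq't, h5, h6, h7, h8, he, hqe, hsn⟩

theorem caseA (hX : S_EXT) (h : Hyp r1 r' a κ ν U) (hlow : IsR (low r1 a U)) {t : Cond W I}
    (ht : Valid (amal r1 r' a κ ν N') t)
    {Φ : Cond W I → ℕ × ℕ → Prop} {j : ℕ} (hj : U j = UU r1 a (restrR r1 t) Φ) :
    ∃ q' q2 s, Valid r' q' ∧ Stronger q' (restrB a t) ∧ Valid r1 q2 ∧
      Stronger q2 (restrR r1 t) ∧ Φ q2 s ∧ Stronger q' (restrB a q2) := by
  obtain ⟨x, hx, hxg⟩ := exists_good hX (t.u a).1 (t.u a).2 (ht.node a)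
  have hN : (triv, {q | q ∈ know r1 (U j) ((t.u a).1, x) ∧ Below a q}) ∈ r'.N :=
    h.hle.N (Or.inr ⟨j, ((t.u a).1, x), hx, rfl⟩)
  obtain ⟨e, ⟨⟨_, q1, s, hq1, hsn, heq⟩, _⟩, q', hq', hq't, hqe⟩ := h.hr'.N2 _ _ hN
    (restrB a t) (h.restr2 ht) (stronger_triv (h.restr2 ht).node)
  rw [hj] at hq1
  obtain ⟨q2, h5, h6, h7, h8⟩ := h.third hlow ht hq' hq't hq1 (hqe.trans heq) (by
    intro _
    have : cut (t.u a).1 s = x := hsn.2
    rw [this]
    exact hxg)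
  exact ⟨q', q2, s, hq', hq't, h5, h6, h7, h8⟩

/-- the hypothesis that the families `U` include those for the promises of `r1` -/
def HU1 (r1 : RD W I) (a : W) (U : ℕ → Name W I) : Prop :=
  ∀ pA A, (pA, A) ∈ r1.N → ∀ p, Valid r1 p → Stronger p pA → ∃ j, U j = UU r1 a p (Phi1 a A)

theorem predense1 (hX : S_EXT) (h : Hyp r1 r' a κ ν U) (hlow : IsR (low r1 a U))
    (hν2 : ∀ q n, (q, n) ∈ ν → ∀ j, (q, hitU ν (U j)) ∈ r'.N) (hU : HU1 r1 a U)
    {pA : Cond W I} {A : Set (Cond W I)} (hA : (pA, A) ∈ r1.N) :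
    Predense (amal r1 r' a κ ν N') pA A := by
  intro t ht htp
  have htp' : Stronger (restrR r1 t) pA := htp.to_restrR (h.hr1.N1 pA A hA).1
  obtain ⟨j, hj⟩ := hU pA A hA _ (h.restr1 ht) htp'
  by_cases hκ : κ ∈ t.F
  · obtain ⟨q', q2, s, e, n, h1, h2, h3, h4, ⟨⟨e', he', hqe'⟩, hfit⟩, h6, h7, h8, h9⟩ :=
      h.caseB hlow ht hκ hν2 hj
    obtain ⟨_, h10⟩ := h.valid_all (N' := N') h1 h3 h6 hfit h7 h8 h9
    refine ⟨e', he', _, h10, ⟨(h.glue_le ht h2 h4).1, fun ι hι => ?_⟩, ?_⟩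
    · by_cases hικ : ι = κ
      · rw [hικ]
        exact Finset.mem_insert_self _ _
      · exact Finset.mem_insert_of_mem ((h.glue_le ht h2 h4).2 ι hι hικ)
    · exact (addF_stronger κ _).trans ((glue_le_right h6).trans hqe')
  · obtain ⟨q', q2, s, h1, h2, h3, h4, ⟨⟨e', he', hqe'⟩, hfit⟩, h6⟩ := h.caseA hX hlow ht hj
    refine ⟨e', he', glue a q' q2, (h.valid2 h1).glue (h.below' h1) (h.valid1 h3) h6,
      ⟨(h.glue_le ht h2 h4).1, fun ι hι => (h.glue_le ht h2 h4).2 ι hι fun h0 => hκ (h0 ▸ hι)⟩,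
      (glue_le_right h6).trans hqe'⟩

theorem predense2 (h : Hyp r1 r' a κ ν U) {pA : Cond W I} {A : Set (Cond W I)}
    (hA : (pA, A) ∈ r'.N) : Predense (amal r1 r' a κ ν N') pA A := by
  intro t ht htp
  obtain ⟨e, he, s, hs1, hs2, hs3⟩ := h.hr'.N2 pA A hA (restrB a t) (h.restr2 ht)
    (htp.to_restrB (h.below' (h.hr'.N1 pA A hA).1))
  exact ⟨e, he, glue a s t, (h.valid2 hs1).glue (h.below' hs1) ht hs2, glue_le_right hs2,
    (glue_le_left (h.below' hs1) ht.node).trans hs3⟩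

theorem isR (hX : S_EXT) (h : Hyp r1 r' a κ ν U) (hlow : IsR (low r1 a U))
    (hν2 : ∀ q n, (q, n) ∈ ν → ∀ j, (q, hitU ν (U j)) ∈ r'.N) (hU : HU1 r1 a U)
    (hN' : N'.Countable)
    (hN1 : ∀ p A, (p, A) ∈ N' → Valid (amal r1 r' a κ ν N') p ∧
      ∀ q ∈ A, Valid (amal r1 r' a κ ν N') q)
    (hN2 : ∀ p A, (p, A) ∈ N' → Predense (amal r1 r' a κ ν N') p A) :
    IsR (amal r1 r' a κ ν N') where
  cw := h.hr1.cw.union h.hr'.cw
  cJ := (h.hr1.cJ.union h.hr'.cJ).insert κ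
  Jw ι hι := by
    rcases hι with rfl | hι | hι
    · left
      rw [h.hκ]
      exact h.ha
    · exact Or.inl (h.hr1.Jw ι hι)
    · exact Or.inr (h.hr'.Jw ι hι)
  junk ι hι := by
    have h1 : ι ≠ κ := fun h1 => hι (Or.inl h1)
    simp only [amal, if_neg h1]
    split_ifs
    · exact h.hr'.junk ι fun h2 => hι (Or.inr (Or.inr h2))
    · exact h.hr1.junk ι fun h2 => hι (Or.inr (Or.inl h2))
  name ι hι := by
    rcases hι with rfl | hι | hι
    · rw [nmκ]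
      refine ⟨fun q n hq => h.valid2 (h.hν.valid q n hq), h.hν.node, ?_, ?_⟩
      · intro q n q' n' hq hq' s hs h1 h2
        exact h.hν.coh q n q' n' hq hq' _ (h.restr2 hs)
          (h1.to_restrB (h.below' (h.hν.valid q n hq)))
          (h2.to_restrB (h.below' (h.hν.valid q' n' hq')))
      · intro q n hq l
        exact Or.inl (Or.inr (h.hν.tot q n hq l))
    · rw [h.nm1 hι]
      have h3 := h.hr1.name ι hι
      refine ⟨fun q n hq => h.valid1 (h3.valid q n hq), h3.node, ?_, ?_⟩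
      · intro q n q' n' hq hq' s hs h1 h2
        exact h3.coh q n q' n' hq hq' _ (h.restr1 hs) (h1.to_restrR (h3.valid q n hq))
          (h2.to_restrR (h3.valid q' n' hq'))
      · intro q n hq l
        exact Or.inl (Or.inl (h3.tot q n hq l))
    · rw [h.nm2 hι]
      have h3 := h.hr'.name ι hι
      refine ⟨fun q n hq => h.valid2 (h3.valid q n hq), h3.node, ?_, ?_⟩
      · intro q n q' n' hq hq' s hs h1 h2
        exact h3.coh q n q' n' hq hq' _ (h.restr2 hs)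
          (h1.to_restrB (h.below' (h3.valid q n hq)))
          (h2.to_restrB (h.below' (h3.valid q' n' hq')))
      · intro q n hq l
        exact Or.inl (Or.inr (h3.tot q n hq l))
  below ι hι q n hq := by
    rcases hι with rfl | hι | hι
    · rw [nmκ] at hq
      rw [h.hκ]
      exact h.below' (h.hν.valid q n hq)
    · rw [h.nm1 hι] at hq
      exact h.hr1.below ι hι q n hq
    · rw [h.nm2 hι] at hq
      exact h.hr'.below ι hι q n hq
  cN := (h.hr1.cN.union h.hr'.cN).union hN'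
  N1 p A hA := by
    rcases hA with (hA | hA) | hA
    · exact ⟨h.valid1 (h.hr1.N1 p A hA).1, fun q hq => h.valid1 ((h.hr1.N1 p A hA).2 q hq)⟩
    · exact ⟨h.valid2 (h.hr'.N1 p A hA).1, fun q hq => h.valid2 ((h.hr'.N1 p A hA).2 q hq)⟩
    · exact hN1 p A hA
  N2 p A hA := by
    rcases hA with (hA | hA) | hA
    · exact h.predense1 hX hlow hν2 hU hA
    · exact h.predense2 hA
    · exact hN2 p A hA

theorem valid_amal (N'' : Set (Cond W I × Set (Cond W I))) :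
    Valid (amal r1 r' a κ ν N') = Valid (amal r1 r' a κ ν N'') := by
  funext p
  apply propext
  constructor
  · intro h
    exact Valid.mono' (r := amal r1 r' a κ ν N') (r' := amal r1 r' a κ ν N'') subset_rfl
      subset_rfl (fun _ _ => rfl) h
  · intro h
    exact Valid.mono' (r := amal r1 r' a κ ν N'') (r' := amal r1 r' a κ ν N') subset_rfl
      subset_rfl (fun _ _ => rfl) h

theorem rle1 (h : Hyp r1 r' a κ ν U) : RLe (amal r1 r' a κ ν N') r1 :=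
  ⟨Set.subset_union_left, Set.subset_union_left.trans (Set.subset_insert _ _),
    fun _ hι => h.nm1 hι, Set.subset_union_left.trans Set.subset_union_left⟩

theorem rle2 (h : Hyp r1 r' a κ ν U) : RLe (amal r1 r' a κ ν N') r' :=
  ⟨Set.subset_union_right, Set.subset_union_right.trans (Set.subset_insert _ _),
    fun _ hι => h.nm2 hι, Set.subset_union_right.trans Set.subset_union_left⟩

end Hyp

/-- the conditions which force the sum into the set of nodes named by `E` -/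
def Estar (V : Cond W I → Prop) (a : W) (κ : W × I) (ν : Name W I)
    (E : ℕ × ℕ → Set (Cond W I)) : Set (Cond W I) :=
  {g | V g ∧ κ ∈ g.F ∧ ∃ d, KNode d ∧ (∃ e ∈ E d, Stronger g e) ∧ ∃ e n, (e, n) ∈ ν ∧
    Stronger g e ∧ (g.u a).1 ≤ n.1 ∧ SumIn d ((g.u a).1, cut (g.u a).1 n) (g.u a)}

theorem one_step (hC : S_CTBL W I) (hX : S_EXT) (hH : S_HIT2) (hEx : S_EXTEND W I)
    {r1 : RD W I} (hr1 : IsR r1) {a : W} (ha : a ∈ r1.w) {p1 : Cond W I} (hp1 : Valid r1 p1)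
    (E : ℕ → ℕ × ℕ → Set (Cond W I))
    (hD : ∀ j n, KNode n → Predense r1 p1 {e | ∃ d, NExt n d ∧ KNode d ∧ e ∈ E j d}) :
    ∃ (p2 : Cond W I) (s1 : ℕ × ℕ) (U : ℕ → Name W I), Valid r1 p2 ∧ Stronger p2 p1 ∧
      IsNode s1 ∧ (∀ j q s, (q, s) ∈ U j → Valid r1 q ∧ Below a q ∧ IsNode s) ∧
      (∀ j n, IsNode n → ∀ q, Valid r1 q → Below a q →
        ∃ q' s, Valid r1 q' ∧ Below a q' ∧ Stronger q' q ∧ NExt n s ∧ (q', s) ∈ U j) ∧
      ∀ r' p' ν κ, IsR r' → RLe r' (low r1 a U) → (∀ c ∈ r'.w, c < a) → Valid r' p' →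
        Stronger p' (restrB a p2) → IsName r' ν → (p', s1) ∈ ν →
        (∀ q n, (q, n) ∈ ν → ∀ j, (q, hitU ν (U j)) ∈ r'.N) → κ.1 = a → κ ∉ r1.J →
        ∃ r2 p3, IsR r2 ∧ RLe r2 r1 ∧ RLe r2 r' ∧ Valid r2 p3 ∧ Stronger p3 p1 ∧
          Stronger p3 p' ∧ ∀ j, (p3, Estar (Valid r2) a κ ν (E j)) ∈ r2.N := by
  -- room for a new index
  obtain ⟨x, hx, hxg⟩ := exists_good hX (p1.u a).1 (p1.u a).2 (hp1.node a)
  obtain ⟨p2, s, h1, h2, _, h3, h4, h5, _⟩ := grow_room hEx hr1 ha hp1 hx hxg 0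
  -- the families
  let 𝒰 : Set (Name W I) :=
    {ν | (∃ pA A, (pA, A) ∈ r1.N ∧ ∃ p, Valid r1 p ∧ Stronger p pA ∧
        ν = UU r1 a p (Phi1 a A)) ∨
      ∃ j p, Valid r1 p ∧ Stronger p p1 ∧ ν = UU r1 a p (Phi2 a (E j))}
  have h𝒰 : 𝒰.Countable := by
    have e1 : 𝒰 ⊆ (fun y : (Cond W I × Set (Cond W I)) × Cond W I =>
        UU r1 a y.2 (Phi1 a y.1.2)) '' (r1.N ×ˢ {p | Valid r1 p}) ∪
        (fun y : ℕ × Cond W I => UU r1 a y.2 (Phi2 a (E y.1))) ''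
          ((Set.univ : Set ℕ) ×ˢ {p | Valid r1 p}) := by
      rintro ν (⟨pA, A, hA, p, hp, _, rfl⟩ | ⟨j, p, hp, _, rfl⟩)
      · exact Or.inl ⟨((pA, A), p), ⟨hA, hp⟩, rfl⟩
      · exact Or.inr ⟨(j, p), ⟨trivial, hp⟩, rfl⟩
    exact (((hr1.cN.prod (hC r1 hr1)).image _).union
      ((Set.countable_univ.prod (hC r1 hr1)).image _)).mono e1
  have h𝒰n : 𝒰.Nonempty := ⟨_, Or.inr ⟨0, p1, hp1, Stronger.refl _, rfl⟩⟩
  obtain ⟨U, hU⟩ := h𝒰.exists_eq_range h𝒰n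
  have hUm : ∀ j, U j ∈ 𝒰 := fun j => by
    rw [hU]
    exact ⟨j, rfl⟩
  have hUV : ∀ j q s, (q, s) ∈ U j → Valid r1 q ∧ Below a q ∧ IsNode s := by
    intro j q s hq
    rcases hUm j with ⟨pA, A, _, p, _, _, h6⟩ | ⟨i, p, _, _, h6⟩
    · rw [h6] at hq
      exact ⟨hq.1, hq.2.1, hq.2.2.1⟩
    · rw [h6] at hq
      exact ⟨hq.1, hq.2.1, hq.2.2.1⟩
  have hUD : ∀ j n, IsNode n → ∀ q, Valid r1 q → Below a q →
      ∃ q' s, Valid r1 q' ∧ Below a q' ∧ Stronger q' q ∧ NExt n s ∧ (q', s) ∈ U j := by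
    intro j n hn q hq hqa
    rcases hUm j with ⟨pA, A, hA, p, hp, hpA, h6⟩ | ⟨i, p, hp, hpp, h6⟩
    · rw [h6]
      exact UU_dense hEx hr1 ha hp (dp_phi1 hX hEx hr1 ha hA hpA) n hn q hq hqa
    · rw [h6]
      exact UU_dense hEx hr1 ha hp (dp_phi2 hX hH hEx hr1 ha (hD i) hpp) n hn q hq hqa
  refine ⟨p2, ((p2.u a).1, s), U, h1, h2, h3, hUV, hUD, ?_⟩
  intro r' p' ν κ hr' hle hw hp' hpp hν hps hν2 hκ hκJ
  have hlow : IsR (low r1 a U) := isR_low hr1 hUD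
  have H : Hyp r1 r' a κ ν U := ⟨hr1, ha, hr', hle, hw, hν, hκ, hκJ⟩
  have hHU1 : Hyp.HU1 r1 a U := by
    intro pA A hA p hp hpA
    have : UU r1 a p (Phi1 a A) ∈ 𝒰 := Or.inl ⟨pA, A, hA, p, hp, hpA, rfl⟩
    rw [hU] at this
    exact this
  have hfit : Fit a p2 ((p2.u a).1, s) := ⟨rfl, h4, h5⟩
  let p3 : Cond W I := addF κ (glue a p' p2)
  let N' : Set (Cond W I × Set (Cond W I)) :=
    {y | ∃ j, y = (p3, Estar (Valid (amal r1 r' a κ ν ∅)) a κ ν (E j))}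
  have hval : Valid (amal r1 r' a κ ν N') p3 :=
    (H.valid_all hp' h1 hpp hfit hps (Stronger.refl _) (NExt.refl _)).2
  have hp3p2 : Stronger p3 p2 := (addF_stronger κ _).trans (glue_le_right hpp)
  have hR : IsR (amal r1 r' a κ ν N') := by
    refine H.isR hX hlow hν2 hHU1 ?_ ?_ ?_
    · have : N' ⊆ Set.range fun j => ((p3, Estar (Valid (amal r1 r' a κ ν ∅)) a κ ν (E j)) :
          Cond W I × Set (Cond W I)) := by
        rintro y ⟨j, rfl⟩
        exact ⟨j, rfl⟩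
      exact (Set.countable_range _).mono this
    · rintro p A ⟨j, h6⟩
      obtain ⟨rfl, rfl⟩ := Prod.mk.inj h6
      refine ⟨hval, fun q hq => ?_⟩
      rw [Hyp.valid_amal ∅]
      exact hq.1
    · rintro p A ⟨j, h6⟩
      obtain ⟨rfl, rfl⟩ := Prod.mk.inj h6
      intro t ht htp
      have hκt : κ ∈ t.F := htp.2 (Finset.mem_insert_self _ _)
      have htp1 : Stronger (restrR r1 t) p1 := (htp.trans (hp3p2.trans h2)).to_restrR hp1
      have : UU r1 a (restrR r1 t) (Phi2 a (E j)) ∈ 𝒰 :=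
        Or.inr ⟨j, _, H.restr1 ht, htp1, rfl⟩
      rw [hU] at this
      obtain ⟨i, hi⟩ := this
      obtain ⟨q', q2, s', e, n, h8, h9, h10, h11, ⟨⟨d, hd1, ⟨e', he', hqe'⟩, hd2⟩, hfit'⟩, h12,
        h13, h14, h15⟩ := H.caseB hlow ht hκt hν2 hi
      obtain ⟨_, h16⟩ := H.valid_all (N' := N') h8 h10 h12 hfit' h13 h14 h15
      have hga : (addF κ (glue a q' q2)).u a = q2.u a := by simp [addF, glue]
      have hgt : Stronger (addF κ (glue a q' q2)) t := by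
        refine ⟨(H.glue_le ht h9 h11).1, fun ι hι => ?_⟩
        by_cases hικ : ι = κ
        · rw [hικ]
          exact Finset.mem_insert_self _ _
        · exact Finset.mem_insert_of_mem ((H.glue_le ht h9 h11).2 ι hι hικ)
      refine ⟨addF κ (glue a q' q2), ⟨by rw [Hyp.valid_amal ∅] at h16; exact h16, Finset.mem_insert_self _ _, d, hd1,
        ⟨e', he', (addF_stronger κ _).trans ((glue_le_right h12).trans hqe')⟩, e, n, h13,
        (addF_stronger κ _).trans ((glue_le_left (H.below' h8) h10.node).trans h14), ?_, ?_⟩,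
        _, h16, hgt, Stronger.refl _⟩
      · rw [hga, ← hfit'.1]
        exact h15.1
      · rw [hga, ← hfit'.1, h15.2]
        exact hd2
  refine ⟨amal r1 r' a κ ν N', p3, hR, H.rle1, H.rle2, hval, hp3p2.trans h2, ?_, ?_⟩
  · exact (addF_stronger κ _).trans (glue_le_left (H.below' hp') h1.node)
  · intro j
    refine Or.inr ⟨j, ?_⟩
    rw [Hyp.valid_amal ∅]

end Pool.Agent.W866.TC
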