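import Pool.Agent.W866.TC.Cond

/-!
# Translates of a Cantor set: statements of the parts
-/

set_option autoImplicit false

namespace Pool.Agent.W866.TC

open Classical Cardinal

/-- ZFC: from the combinatorial principle to the real line. -/
def S_ZFC : Prop := Star → Translates

/-- EXT: a node `u` of level `l` has an extension of level `l'` such that the sums with all
elements of a small set of nodes of level `l'` are good. -/
def S_EXT : Prop := ∀ l l' : ℕ, l ≤ l' → ∀ (S : Finset ℕ) (u : ℕ), u < B l →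
  (∀ x ∈ S, x < B l' ∧ GoodSum l (cut l (l', x) + u)) → 3 * S.card < b l →
  ∃ u' < B l', cut l (l', u') = u ∧ ∀ x ∈ S, GoodSum l' (x + u')

/-- HIT1: one more block, with a nonzero last block of `s'`. -/
def S_HIT1 : Prop := ∀ (l : ℕ) (S : Finset ℕ) (s u : ℕ), s < B l → u < B l →
  GoodSum l (s + u) → (∀ x ∈ S, x < B (l + 1) ∧ GoodSum l (x / b l + u)) → 3 * S.card < b l →
  ∃ s' < B (l + 1), ∃ u' < B (l + 1), s' / b l = s ∧ u' / b l = u ∧ 1 ≤ s' % b l ∧
    (∀ x ∈ S, GoodSum (l + 1) (x + u')) ∧ GoodSum (l + 1) (s' + u')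

/-- HIT2: subtraction. -/
def S_HIT2 : Prop := ∀ (l L : ℕ) (s' u' u : ℕ) (d : ℕ × ℕ),
  s' < B (l + 1) → 1 ≤ s' % b l → u' < B (l + 1) → KNode d →
  NExt (l + 1, (s' + u') % B (l + 1)) d → d.1 < L → u < B L → cut (l + 1) (L, u) = u' →
  ∃ s < B L, cut l (L, s) = s' / b l ∧ GoodSum L (s + u) ∧ SumIn d (L, s) (L, u)

section Count

/-- the set of stages -/
abbrev Wc : Type := (Order.succ (𝔠 : Cardinal.{0})).ord.ToType

/-- the objects to be reflected -/
abbrev Obj : Type :=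
  RD Wc (Set ℕ) × Cond Wc (Set ℕ) × (ℕ → Name Wc (Set ℕ)) × (ℕ × ℕ)

/-- the object `o` lives below stage `a` -/
def InB (a : Wc) (o : Obj) : Prop :=
  IsR o.1 ∧ (∀ c ∈ o.1.w, c < a) ∧ Valid o.1 o.2.1 ∧ ∀ j q n, (q, n) ∈ o.2.2.1 j → Valid o.1 q

/-- COUNT: there are at most continuum many objects below a given stage. -/
def S_COUNT : Prop := ∀ a : Wc, #{o : Obj // InB a o} ≤ 𝔠

/-- REFL: closure points. -/
def S_REFL : Prop := S_COUNT → ∀ (f : Obj → Set Wc), (∀ o, (f o).Countable) → ∀ a0 : Wc,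
  ∃ a, a0 < a ∧ (∀ C : Set Wc, C.Countable → (∀ c ∈ C, c < a) → ∃ e < a, ∀ c ∈ C, c < e) ∧
    ∀ o, InB a o → ∀ c ∈ f o, c < a

end Count

section Gen

variable (W I : Type) [LinearOrder W]

/-- CTBL: the set of the valid conditions is countable. -/
def S_CTBL : Prop := ∀ r : RD W I, IsR r → {p | Valid r p}.Countable

/-- DEC: deciding countably many dense sets at once. -/
def S_DEC : Prop := ∀ (r : RD W I) (Φ : ℕ → RD W I → Cond W I → Prop), IsR r →
  (∀ n r₁ p₁ r₂ p₂, IsR r₁ → IsR r₂ → Valid r₁ p₁ → Valid r₂ p₂ → RLe r₂ r₁ → Stronger p₂ p₁ →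
    Φ n r₁ p₁ → Φ n r₂ p₂) →
  (∀ n r₁ p₁, IsR r₁ → RLe r₁ r → Valid r₁ p₁ → ∃ r₂ p₂, IsR r₂ ∧ RLe r₂ r₁ ∧ Valid r₂ p₂ ∧
    Stronger p₂ p₁ ∧ Φ n r₂ p₂) →
  ∃ r', IsR r' ∧ RLe r' r ∧ ∀ n p, Valid r' p → ∃ q, Valid r' q ∧ Stronger q p ∧ Φ n r' q

/-- the restriction of a condition to the stages before `a` -/
noncomputable def restrB {W I : Type} [LinearOrder W] (a : W) (p : Cond W I) : Cond W I where
  u := fun c => if c < a then p.u c else (0, 0)
  F := p.F.filter fun ι => ι.1 < a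

/-- EXTEND: making the node at stage `a` longer. -/
def S_EXTEND : Prop := ∀ (r : RD W I) (p q : Cond W I) (a : W) (l s : ℕ), IsR r → Valid r p →
  a ∈ r.w → Valid r q → Below a q → Stronger q (restrB a p) → (p.u a).1 ≤ l → s < B l →
  GoodSum (p.u a).1 (cut (p.u a).1 (l, s) + (p.u a).2) →
  ∃ p', Valid r p' ∧ Stronger p' p ∧ Stronger p' q ∧ (p'.u a).1 = l ∧
    GoodSum l (s + (p'.u a).2) ∧ cnt p' a = cnt p a

end Gen

end Pool.Agent.W866.TC
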